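import Mathlib

namespace Pool.Agent.Work.MP_3e4917_al

/-- `N` has a Jordan basis whose blocks have the sizes listed in `P`: a basis `e ⟨i, k⟩`
(`k < p i`) with `N` sending each vector to the next one in its block and the last one to `0`. -/
def IsJordanType {K V : Type*} [Field K] [AddCommGroup V] [Module K V] (N : V →ₗ[K] V)
    (P : Multiset ℕ) : Prop :=
  ∃ (ι : Type) (_ : Fintype ι) (p : ι → ℕ) (e : Module.Basis (Σ i, Fin (p i)) K V),
    Finset.univ.val.map p = P ∧ ∀ (i : ι) (k : Fin (p i)),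
      N (e ⟨i, k⟩) = if h : k.1 + 1 < p i then e ⟨i, ⟨k.1 + 1, h⟩⟩ else 0

/-- The largest element of `S` below `s` (and `0` if there is none). -/
def prev (S : Finset ℕ) (s : ℕ) : ℕ := (S.filter (· < s)).sup id

/-- The least element of `S`. -/
noncomputable def least (S : Finset ℕ) : ℕ := sInf (S : Set ℕ)

/-- For `S = {s₀ < s₁ < ⋯ < s_r}`: the part `s₀` repeated `b - a + s₀` times and, for `i ≥ 1`, the
part `b - a + s_{i-1} + s_i` repeated `s_i - s_{i-1}` times; zero parts are dropped. -/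
noncomputable def typ (a b : ℕ) (S : Finset ℕ) : Multiset ℕ :=
  (Multiset.replicate (b - a + least S) (least S) + ∑ s ∈ S.erase (least S),
    Multiset.replicate (s - prev S s) (b - a + prev S s + s)).filter (· ≠ 0)

/-- The Hilbert function of `K[x,y]/(f,g)`: the dimension of the image of the forms of
degree `i`. -/
noncomputable def hilb {K : Type*} [Field K] (f g : MvPolynomial (Fin 2) K) (i : ℕ) : ℕ :=
  Module.finrank K ((MvPolynomial.homogeneousSubmodule (Fin 2) K i).map
    (Ideal.Quotient.mkₐ K (Ideal.span {f, g})).toLinearMap)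

/-- The sequence `1, 2, …, a, a, …, a, a - 1, …, 1, 0, …` attached to degrees `a ≤ b`. -/
def hf (a b i : ℕ) : ℕ := if i < a then i + 1 else if i < b then a else a + b - 1 - i

/-- There are a graded complete intersection `K[x,y]/(f,g)` with Hilbert function `H` and linear
forms `l₁, l₂` (both nonzero unless `z` holds) whose multiplication maps have Jordan types
`P` and `Q`. -/
def Occurs (K : Type*) [Field K] (H : ℕ → ℕ) (z : Prop) (P Q : Multiset ℕ) : Prop :=
  ∃ (d e : ℕ) (f g l₁ l₂ : MvPolynomial (Fin 2) K), d ≤ e ∧ f.IsHomogeneous d ∧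
    g.IsHomogeneous e ∧ RingTheory.Sequence.IsRegular (MvPolynomial (Fin 2) K) [f, g] ∧
    hilb f g = H ∧ l₁.IsHomogeneous 1 ∧ l₂.IsHomogeneous 1 ∧ (z ∨ (l₁ ≠ 0 ∧ l₂ ≠ 0)) ∧
    IsJordanType (LinearMap.mulLeft K (Ideal.Quotient.mk (Ideal.span {f, g}) l₁)) P ∧
    IsJordanType (LinearMap.mulLeft K (Ideal.Quotient.mk (Ideal.span {f, g}) l₂)) Q

end Pool.Agent.Work.MP_3e4917_al
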