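import Pool.Agent.Work.MP_3e4917_al.Defs
import Mathlib

-- merged part: Pool.Agent.Work.MP_3e4917_al.Jordan
section
namespace Pool.Agent.Work.MP_3e4917_al

open Polynomial

variable {K V : Type*} [Field K] [AddCommGroup V] [Module K V]

/-- sum of `min p m` over the parts -/
def smin (P : Multiset ℕ) (m : ℕ) : ℕ := (P.map (fun p => min p m)).sum

lemma smin_filter (P : Multiset ℕ) (m : ℕ) : smin (P.filter (· ≠ 0)) m = smin P m := by
  induction P using Multiset.induction_on with
  | empty => simp [smin]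
  | cons a s ih =>
    by_cases h : a = 0
    · subst h
      rw [Multiset.filter_cons_of_neg _ (by simp)]
      simp only [smin, Multiset.map_cons, Multiset.sum_cons] at ih ⊢
      simp [ih]
    · rw [Multiset.filter_cons_of_pos _ (by simpa using h)]
      simp only [smin, Multiset.map_cons, Multiset.sum_cons] at ih ⊢
      rw [ih]

lemma smin_succ (P : Multiset ℕ) (m : ℕ) :
    smin P (m + 1) = smin P m + P.countP (m < ·) := by
  induction P using Multiset.induction_on with
  | empty => simp [smin]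
  | cons a s ih =>
    simp only [smin, Multiset.map_cons, Multiset.sum_cons, Multiset.countP_cons] at ih ⊢
    rw [ih]; split_ifs <;> omega

lemma card_filter_succ (P : Multiset ℕ) (m : ℕ) :
    P.countP (m < ·) = P.count (m + 1) + P.countP (m + 1 < ·) := by
  induction P using Multiset.induction_on with
  | empty => simp
  | cons a s ih =>
    simp only [Multiset.count_cons, Multiset.countP_cons, ih]
    split_ifs <;> omega

lemma eq_of_smin {P Q : Multiset ℕ} (hP : 0 ∉ P) (hQ : 0 ∉ Q) (h : ∀ m, smin P m = smin Q m) :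
    P = Q := by
  have h1 : ∀ m, P.countP (m < ·) = Q.countP (m < ·) := by
    intro m
    have a := smin_succ P m
    have b := smin_succ Q m
    rw [h, h] at a
    omega
  ext n
  rcases n with _ | n
  · rw [Multiset.count_eq_zero_of_notMem hP, Multiset.count_eq_zero_of_notMem hQ]
  · have a := card_filter_succ P n
    have b := card_filter_succ Q n
    rw [h1, h1] at a
    omega

lemma IsJordanType.rank_eq {N : V →ₗ[K] V} {P : Multiset ℕ} (h : IsJordanType N P) (m : ℕ) :
    Module.rank K (V ⧸ LinearMap.range (N ^ m)) = smin P m := by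
  classical
  obtain ⟨ι, _, p, e, rfl, he⟩ := h
  have hpow : ∀ (m : ℕ) (i : ι) (k : Fin (p i)), (N ^ m) (e ⟨i, k⟩) =
      if h : k.1 + m < p i then e ⟨i, ⟨k.1 + m, h⟩⟩ else 0 := by
    intro m
    induction m with
    | zero => intro i k; simp
    | succ m ih =>
      intro i k
      rw [pow_succ', Module.End.mul_apply, ih]
      by_cases h : k.1 + m < p i
      · rw [dif_pos h, he]; rfl
      · rw [dif_neg h, dif_neg (by omega), map_zero]
  set T : Finset (Σ i, Fin (p i)) := Finset.univ.filter (fun x => m ≤ x.2.1) with hT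
  have hr : LinearMap.range (N ^ m) = Submodule.span K (e '' (T : Set _)) := by
    rw [← Submodule.map_top, ← e.span_eq, Submodule.map_span]
    apply le_antisymm
    · rw [Submodule.span_le]
      rintro _ ⟨_, ⟨⟨i, k⟩, rfl⟩, rfl⟩
      rw [hpow]
      split_ifs with h
      · exact Submodule.subset_span ⟨_, by simp [hT], rfl⟩
      · exact Submodule.zero_mem _
    · rw [Submodule.span_le]
      rintro _ ⟨⟨i, k⟩, hk, rfl⟩
      have hk' : m ≤ k.1 := by simpa [hT] using hk
      refine Submodule.subset_span ⟨e ⟨i, ⟨k.1 - m, by omega⟩⟩, ⟨_, rfl⟩, ?_⟩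
      rw [hpow, dif_pos (by simp only; omega)]
      congr 2
      ext; simp only; omega
  have : Module.Finite K V := Module.Finite.of_basis e
  have h1 : Module.finrank K (LinearMap.range (N ^ m)) = T.card := by
    rw [hr]
    have hli : LinearIndependent K (fun x : T => e x) :=
      e.linearIndependent.comp _ Subtype.val_injective
    have := finrank_span_eq_card hli
    rw [Fintype.card_coe] at this
    rw [← this]
    have e1 : (Set.range fun x : T => e x) = e '' (T : Set _) := by ext v; simp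
    rw [e1]
  have h2 := Submodule.finrank_quotient_add_finrank (LinearMap.range (N ^ m))
  rw [h1, Module.finrank_eq_card_basis e] at h2
  have h3 : (Finset.univ.filter (fun x : (Σ i, Fin (p i)) => ¬ m ≤ x.2.1)).card + T.card =
      Fintype.card (Σ i, Fin (p i)) := by
    rw [add_comm, hT, Finset.card_filter_add_card_filter_not]; rfl
  have h4 : (Finset.univ.filter (fun x : (Σ i, Fin (p i)) => ¬ m ≤ x.2.1)).card =
      smin (Finset.univ.val.map p) m := by
    rw [smin, Multiset.map_map, ← Finset.univ_sigma_univ, Finset.filter_sigma, Finset.card_sigma]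
    change ∑ i, _ = ∑ i, min (p i) m
    refine Finset.sum_congr rfl fun i _ => ?_
    simp only [not_le]
    rw [Fin.card_filter_val_lt]
  rw [← Module.finrank_eq_rank]
  congr 1
  omega

lemma IsJordanType.finite {N : V →ₗ[K] V} {P : Multiset ℕ} (h : IsJordanType N P) :
    Module.Finite K V := by
  obtain ⟨ι, _, p, e, -, -⟩ := h
  exact Module.Finite.of_basis e

lemma IsJordanType.filter {N : V →ₗ[K] V} {P : Multiset ℕ} (h : IsJordanType N P) :
    IsJordanType N (P.filter (· ≠ 0)) := by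
  classical
  obtain ⟨ι, _, p, e, rfl, he⟩ := h
  let φ : (Σ i : {i // p i ≠ 0}, Fin (p i)) ≃ (Σ i, Fin (p i)) :=
    { toFun := fun x => ⟨x.1.1, x.2⟩
      invFun := fun x => ⟨⟨x.1, by have := x.2.2; omega⟩, x.2⟩
      left_inv := fun x => rfl
      right_inv := fun x => rfl }
  refine ⟨{i // p i ≠ 0}, inferInstance, fun i => p i, e.reindex φ.symm, ?_, ?_⟩
  · rw [Multiset.filter_map]
    have : (Finset.univ : Finset {i // p i ≠ 0}).val.map Subtype.val =
        Multiset.filter ((· ≠ 0) ∘ p) Finset.univ.val := by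
      rw [← Finset.filter_val]
      have : (Finset.univ : Finset {i // p i ≠ 0}).map ⟨Subtype.val, Subtype.val_injective⟩ =
          Finset.filter ((· ≠ 0) ∘ p) Finset.univ := by ext i; simp
      rw [← this]; rfl
    rw [← this, Multiset.map_map]; rfl
  · intro i k
    simp only [Module.Basis.reindex_apply, Equiv.symm_symm]
    exact he i.1 k

lemma exists_isJordanType [Module.Finite K V] (N : V →ₗ[K] V) (hN : IsNilpotent N) :
    ∃ P, IsJordanType N P := by
  classical
  obtain ⟨n, hn⟩ := hN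
  have ht : Module.IsTorsion' (Module.AEval' N) (Submonoid.powers (X : K[X])) := by
    intro x
    refine ⟨⟨X ^ n, n, rfl⟩, ?_⟩
    obtain ⟨v, rfl⟩ := (Module.AEval'.of N).surjective x
    change (X ^ n : K[X]) • (Module.AEval'.of N v) = 0
    rw [Module.AEval'.X_pow_smul_of, hn]; simp
  obtain ⟨d, k, ⟨φ⟩⟩ := Module.torsion_by_prime_power_decomposition irreducible_X ht
  let b : ∀ i : Fin d, Module.Basis (Fin (k i)) K (K[X] ⧸ (K[X] ∙ (X : K[X]) ^ k i)) := fun i =>
    (AdjoinRoot.powerBasis' (monic_X_pow (R := K) (k i))).basis.reindex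
      (finCongr (by simp))
  have hb : ∀ i (j : Fin (k i)), b i j = Submodule.Quotient.mk (X ^ j.1) := by
    intro i j
    have : ((AdjoinRoot.powerBasis' (monic_X_pow (R := K) (k i))).basis.reindex
      (finCongr (show _ = k i by simp))) j = AdjoinRoot.mk _ (X ^ j.1) := by
      simp only [Module.Basis.reindex_apply, PowerBasis.coe_basis]
      simp only [AdjoinRoot.powerBasis'_gen, finCongr_symm, finCongr_apply, Fin.val_cast]
      rw [← AdjoinRoot.mk_X, ← map_pow]
    exact this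
  let ψ : V ≃ₗ[K] (∀ i : Fin d, K[X] ⧸ (K[X] ∙ (X : K[X]) ^ k i)) :=
    (Module.AEval'.of N).trans
      ((φ.trans (DirectSum.linearEquivFunOnFintype K[X] _ _)).restrictScalars K)
  have hψ : ∀ v, ψ (N v) = (X : K[X]) • ψ v := by
    intro v
    simp only [ψ, LinearEquiv.trans_apply, LinearEquiv.restrictScalars_apply]
    rw [← map_smul, ← map_smul, Module.AEval'.X_smul_of]
  refine ⟨_, Fin d, inferInstance, k, (Pi.basis b).map ψ.symm, rfl, ?_⟩
  intro i j
  apply ψ.injective
  rw [hψ]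
  simp only [Module.Basis.map_apply, LinearEquiv.apply_symm_apply, Pi.basis_apply]
  rw [← Pi.single_smul, hb, ← Submodule.Quotient.mk_smul, smul_eq_mul, ← pow_succ']
  split_ifs with h
  · simp only [LinearEquiv.apply_symm_apply, hb]
  · rw [map_zero, (Submodule.Quotient.mk_eq_zero _).2, Pi.single_zero]
    have : j.1 + 1 = k i := by have := j.2; omega
    rw [this]
    exact Submodule.mem_span_singleton_self _

/-- the criterion -/
lemma isJordanType_of_rank [Module.Finite K V] (N : V →ₗ[K] V) (hN : IsNilpotent N)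
    (P : Multiset ℕ) (hP : 0 ∉ P)
    (h : ∀ m, Module.rank K (V ⧸ LinearMap.range (N ^ m)) = smin P m) : IsJordanType N P := by
  obtain ⟨Q, hQ⟩ := exists_isJordanType N hN
  have hQ' := hQ.filter
  have : Q.filter (· ≠ 0) = P := by
    refine eq_of_smin (by simp) hP fun m => ?_
    have := hQ'.rank_eq m
    rw [h] at this
    exact_mod_cast this.symm
  rwa [this] at hQ'

lemma IsJordanType.eq_of_rank {N : V →ₗ[K] V} {P Q : Multiset ℕ} (hJ : IsJordanType N P)
    (hP : 0 ∉ P) (hQ : 0 ∉ Q)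
    (h : ∀ m, Module.rank K (V ⧸ LinearMap.range (N ^ m)) = smin Q m) : P = Q := by
  refine eq_of_smin hP hQ fun m => ?_
  have := hJ.rank_eq m
  rw [h] at this
  exact_mod_cast this.symm

end Pool.Agent.Work.MP_3e4917_al
end

-- merged part: Pool.Agent.Work.MP_3e4917_al.Colon
section
namespace Pool.Agent.Work.MP_3e4917_al

section general

variable (K : Type*) [Field K] {R : Type*} [CommRing R] [Algebra K R]

/-- colength of an ideal -/
noncomputable def lam (J : Ideal R) : Cardinal := Module.rank K (R ⧸ J)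

variable {K}

lemma lam_colon (J J₁ J₂ : Ideal R) (t : R) (h₁ : ∀ r, r ∈ J₁ ↔ t * r ∈ J)
    (h₂ : J₂ = J ⊔ Ideal.span {t}) : lam K J = lam K J₂ + lam K J₁ := by
  have hle : J ≤ J₂ := h₂ ▸ le_sup_left
  let π : (R ⧸ J) →ₗ[K] (R ⧸ J₂) := (Ideal.Quotient.factorₐ K hle).toLinearMap
  have hπ : Function.Surjective π := by
    intro z
    obtain ⟨r, rfl⟩ := Ideal.Quotient.mk_surjective z
    exact ⟨Ideal.Quotient.mk _ r, rfl⟩
  let φ : (R ⧸ J₁) →ₗ[K] (R ⧸ J) :=
    (Submodule.mapQ J₁ J (LinearMap.mulLeft R t) (fun r hr => (h₁ r).1 hr)).restrictScalars K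
  have hφ0 : ∀ r, φ (Ideal.Quotient.mk _ r) = Ideal.Quotient.mk _ (t * r) := fun r => rfl
  have hφ : Function.Injective φ := by
    rw [injective_iff_map_eq_zero]
    intro z hz
    obtain ⟨r, rfl⟩ := Ideal.Quotient.mk_surjective z
    rw [hφ0, Ideal.Quotient.eq_zero_iff_mem] at hz
    exact Ideal.Quotient.eq_zero_iff_mem.2 ((h₁ r).2 hz)
  have hk : LinearMap.ker π = LinearMap.range φ := by
    ext z
    obtain ⟨r, rfl⟩ := Ideal.Quotient.mk_surjective z
    have : π (Ideal.Quotient.mk _ r) = Ideal.Quotient.mk _ r := rfl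
    rw [LinearMap.mem_ker, this, Ideal.Quotient.eq_zero_iff_mem, h₂, Submodule.mem_sup]
    constructor
    · rintro ⟨y, hy, z, hz, rfl⟩
      obtain ⟨c, rfl⟩ := Ideal.mem_span_singleton'.1 hz
      refine ⟨Ideal.Quotient.mk _ c, ?_⟩
      rw [hφ0, map_add, Ideal.Quotient.eq_zero_iff_mem.2 hy, zero_add, mul_comm]
    · rintro ⟨z, hz⟩
      obtain ⟨c, rfl⟩ := Ideal.Quotient.mk_surjective z
      rw [hφ0, Ideal.Quotient.eq] at hz
      refine ⟨-(t * c - r), neg_mem hz, t * c, Ideal.mul_mem_right _ _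
        (Ideal.mem_span_singleton_self t), by ring⟩
  have := LinearMap.rank_range_add_rank_ker π
  rw [hk, LinearMap.range_eq_top.2 hπ, rank_top, rank_range_of_injective φ hφ] at this
  exact this.symm

lemma rank_quot_range (I : Ideal R) (l : R) (m : ℕ) :
    Module.rank K ((R ⧸ I) ⧸ LinearMap.range
      (LinearMap.mulLeft K (Ideal.Quotient.mk I l) ^ m)) = lam K (I ⊔ Ideal.span {l ^ m}) := by
  let π : (R ⧸ I) →ₗ[K] (R ⧸ (I ⊔ Ideal.span {l ^ m})) :=
    (Ideal.Quotient.factorₐ K le_sup_left).toLinearMap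
  have hπ : Function.Surjective π := by
    intro z
    obtain ⟨r, rfl⟩ := Ideal.Quotient.mk_surjective z
    exact ⟨Ideal.Quotient.mk _ r, rfl⟩
  have hk : LinearMap.range (LinearMap.mulLeft K (Ideal.Quotient.mk I l) ^ m) =
      LinearMap.ker π := by
    ext z
    obtain ⟨r, rfl⟩ := Ideal.Quotient.mk_surjective z
    have : π (Ideal.Quotient.mk _ r) = Ideal.Quotient.mk _ r := rfl
    rw [LinearMap.mem_ker, this, Ideal.Quotient.eq_zero_iff_mem, Submodule.mem_sup,
      LinearMap.pow_mulLeft, ← map_pow]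
    constructor
    · rintro ⟨z, hz⟩
      obtain ⟨c, rfl⟩ := Ideal.Quotient.mk_surjective z
      rw [LinearMap.mulLeft_apply, ← map_mul, Ideal.Quotient.eq] at hz
      refine ⟨-(l ^ m * c - r), neg_mem hz, l ^ m * c, Ideal.mul_mem_right _ _
        (Ideal.mem_span_singleton_self _), by ring⟩
    · rintro ⟨y, hy, z, hz, rfl⟩
      obtain ⟨c, rfl⟩ := Ideal.mem_span_singleton'.1 hz
      refine ⟨Ideal.Quotient.mk _ c, ?_⟩
      rw [LinearMap.mulLeft_apply, ← map_mul, map_add, Ideal.Quotient.eq_zero_iff_mem.2 hy,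
        zero_add, mul_comm]
  rw [hk]
  exact (π.quotKerEquivOfSurjective hπ).rank_eq

lemma span_pair_sup (f g t : R) :
    Ideal.span {f, g} ⊔ Ideal.span {t} = Ideal.span {f, g, t} := by
  rw [← Ideal.span_union]
  congr 1
  ext z; simp only [Set.mem_union, Set.mem_insert_iff, Set.mem_singleton_iff]; tauto

lemma mem_span_triple {f g t r : R} :
    r ∈ Ideal.span {f, g, t} ↔ ∃ a b c, a * f + b * g + c * t = r := by
  rw [Ideal.span, Submodule.mem_span_triple]; simp only [smul_eq_mul]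

lemma span_triple_comm (f g t : R) : Ideal.span {f, g, t} = Ideal.span {g, f, t} := by
  rw [Set.insert_comm]

lemma lam_equiv (θ : R ≃ₐ[K] R) (f g t : R) :
    lam K (Ideal.span {θ f, θ g, θ t}) = lam K (Ideal.span {f, g, t}) := by
  have : Ideal.span {θ f, θ g, θ t} = (Ideal.span {f, g, t}).map (θ : R →+* R) := by
    rw [Ideal.map_span]; simp [Set.image_insert_eq]
  exact (Ideal.quotientEquivAlg _ _ θ this).toLinearEquiv.rank_eq.symm

variable [IsDomain R]

lemma lam_step {x u : R} (hx : Prime x) (hu : ¬ x ∣ u) (v : R) (e m : ℕ) :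
    lam K (Ideal.span {u, x ^ e * v, x ^ (e + m)}) =
      lam K (Ideal.span {u, x ^ e}) + lam K (Ideal.span {u, v, x ^ m}) := by
  refine lam_colon _ _ _ (x ^ e) (fun r => ?_) ?_
  · simp only [mem_span_triple]
    constructor
    · rintro ⟨a, b, c, rfl⟩
      exact ⟨x ^ e * a, b, c, by ring⟩
    · rintro ⟨a, b, c, h⟩
      have : x ^ e ∣ a * u := ⟨r - b * v - c * x ^ m, by linear_combination h⟩
      obtain ⟨a', rfl⟩ := hx.pow_dvd_of_dvd_mul_right e hu this
      refine ⟨a', b, c, mul_left_cancel₀ (pow_ne_zero e hx.ne_zero) ?_⟩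
      linear_combination h
  · apply le_antisymm
    · rw [Ideal.span_le]
      rintro z (rfl | rfl)
      · exact Ideal.mem_sup_left (Ideal.subset_span (by simp))
      · exact Ideal.mem_sup_right (Ideal.subset_span (by simp))
    · refine sup_le ?_ (Ideal.span_mono (by simp))
      rw [Ideal.span_le]
      rintro z (rfl | rfl | rfl)
      · exact Ideal.subset_span (by simp)
      · exact Ideal.mul_mem_right _ _ (Ideal.subset_span (by simp))
      · rw [pow_add]; exact Ideal.mul_mem_right _ _ (Ideal.subset_span (by simp))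

omit [IsDomain R] in
lemma span_small (x u v : R) {e m : ℕ} (h : m ≤ e) :
    Ideal.span {u, x ^ e * v, x ^ m} = Ideal.span {u, x ^ m} := by
  apply le_antisymm
  · rw [Ideal.span_le]
    rintro z (rfl | rfl | rfl)
    · exact Ideal.subset_span (by simp)
    · obtain ⟨k, rfl⟩ := Nat.exists_eq_add_of_le h
      rw [pow_add, mul_assoc]
      exact Ideal.mul_mem_right _ _ (Ideal.subset_span (by simp))
    · exact Ideal.subset_span (by simp)
  · exact Ideal.span_mono (by intro z; simp only [Set.mem_insert_iff, Set.mem_singleton_iff]; tauto)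

lemma lam_pow {x u : R} (hx : Prime x) (hu : ¬ x ∣ u) (m : ℕ) :
    lam K (Ideal.span {u, x ^ m}) = m * lam K (Ideal.span {u, x}) := by
  have e0 : ∀ t : R, Ideal.span {u, 0, t} = Ideal.span {u, t} := by
    intro t
    rw [Set.insert_comm, Ideal.span_insert_zero]
  induction m with
  | zero =>
    have : Ideal.span {u, x ^ 0} = ⊤ := by
      rw [Ideal.eq_top_iff_one]; exact Ideal.subset_span (by simp)
    rw [this, lam]
    simp [rank_subsingleton']
  | succ m ih =>
    have := lam_step (K := K) hx hu 0 1 m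
    rw [mul_zero, e0, e0, pow_one, ih, add_comm 1 m] at this
    rw [this]; push_cast; ring

end general

section plane

open MvPolynomial

variable {K : Type*} [Field K]

lemma lam_xy : lam K (Ideal.span {(X 0 : MvPolynomial (Fin 2) K), X 1}) = 1 := by
  have h : Ideal.span {(X 0 : MvPolynomial (Fin 2) K), X 1} =
      RingHom.ker (aeval (R := K) (fun _ : Fin 2 => (0 : K))) := by
    have : ({X 0, X 1} : Set (MvPolynomial (Fin 2) K)) = Set.range X := by
      ext z; simp [Fin.exists_fin_two, eq_comm]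
    rw [this]
    ext p
    have := mem_pow_idealOfVars_iff' (σ := Fin 2) (R := K) 1 p
    rw [pow_one] at this
    rw [this, RingHom.mem_ker, aeval_zero']
    simp [constantCoeff_eq, Finsupp.degree_eq_zero_iff]
  have hs : Function.Surjective (aeval (R := K) (fun _ : Fin 2 => (0 : K))) :=
    fun z => ⟨C z, by simp⟩
  rw [lam, h, (Ideal.quotientKerAlgEquivOfSurjective hs).toLinearEquiv.rank_eq]
  simp

lemma homog_zero_dvd (u : Polynomial K) {n : ℕ} (hn : u.natDegree ≤ n) :
    (X 0 : MvPolynomial (Fin 2) K) ∣ u.homogenize n - C (u.coeff 0) * X 1 ^ n := by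
  rcases n with _ | n
  · rw [Polynomial.eq_C_of_natDegree_le_zero hn]; simp
  · conv_rhs => rw [← Polynomial.X_mul_divX_add u]
    have h1 : u.divX.natDegree ≤ n := by
      rw [Polynomial.natDegree_divX_eq_natDegree_tsub_one]; omega
    rw [Polynomial.homogenize_add, add_comm n 1,
      Polynomial.homogenize_mul _ _ Polynomial.natDegree_X_le h1]
    simp

lemma not_dvd_homog {u : Polynomial K} {n : ℕ} (hn : u.natDegree ≤ n) (h0 : u.coeff 0 ≠ 0) :
    ¬ (X 0 : MvPolynomial (Fin 2) K) ∣ u.homogenize n := by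
  intro h
  have h2 := (dvd_sub_right h).1 (homog_zero_dvd u hn)
  have := map_dvd (eval ![0, 1]) h2
  simp [h0] at this

lemma lam_homog {u : Polynomial K} {n : ℕ} (hn : u.natDegree ≤ n) (h0 : u.coeff 0 ≠ 0) (m : ℕ) :
    lam K (Ideal.span {u.homogenize n, (X 0 : MvPolynomial (Fin 2) K) ^ m}) = (m * n : ℕ) := by
  rw [lam_pow X_prime (not_dvd_homog hn h0)]
  have : Ideal.span {u.homogenize n, (X 0 : MvPolynomial (Fin 2) K)} =
      Ideal.span {X 0, X 1 ^ n} := by
    obtain ⟨w, hw⟩ := homog_zero_dvd u hn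
    apply le_antisymm
    · rw [Ideal.span_le]
      rintro z (rfl | rfl)
      · exact Ideal.mem_span_pair.2 ⟨w, C (u.coeff 0), by linear_combination -hw⟩
      · exact Ideal.subset_span (by simp)
    · rw [Ideal.span_le]
      rintro z (rfl | rfl)
      · exact Ideal.subset_span (by simp)
      · refine Ideal.mem_span_pair.2 ⟨C (u.coeff 0)⁻¹, -(C (u.coeff 0)⁻¹ * w), ?_⟩
        have : (C (u.coeff 0)⁻¹ : MvPolynomial (Fin 2) K) * C (u.coeff 0) = 1 := by
          rw [← C_mul, inv_mul_cancel₀ h0, C_1]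
        linear_combination C (u.coeff 0)⁻¹ * hw + X 1 ^ n * this
  have h10 : ¬ (X 1 : MvPolynomial (Fin 2) K) ∣ X 0 := by
    intro h
    have := map_dvd (eval ![1, 0]) h
    simp at this
  rw [this, lam_pow X_prime h10, lam_xy]
  simp

end plane

end Pool.Agent.Work.MP_3e4917_al
end

-- merged part: Pool.Agent.Work.MP_3e4917_al.Comb
section
namespace Pool.Agent.Work.MP_3e4917_al

/-- unfiltered type -/
noncomputable def jt (d : ℕ) (S : Finset ℕ) : Multiset ℕ :=
  Multiset.replicate (d + least S) (least S) + ∑ s ∈ S.erase (least S),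
    Multiset.replicate (s - prev S s) (d + prev S s + s)

lemma typ_eq (a b : ℕ) (S : Finset ℕ) : typ a b S = (jt (b - a) S).filter (· ≠ 0) := rfl

lemma least_mem {S : Finset ℕ} (h : S.Nonempty) : least S ∈ S :=
  Nat.sInf_mem (s := (S : Set ℕ)) (by simpa using h)

lemma least_le {S : Finset ℕ} {s : ℕ} (h : s ∈ S) : least S ≤ s := Nat.sInf_le (by simpa using h)

lemma least_eq {S : Finset ℕ} {s : ℕ} (h : s ∈ S) (h' : ∀ t ∈ S, s ≤ t) : least S = s :=
  le_antisymm (least_le h) (h' _ (least_mem ⟨s, h⟩))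

lemma least_of_zero {S : Finset ℕ} (h : 0 ∈ S) : least S = 0 := least_eq h (by simp)

lemma least_succ {S : Finset ℕ} (h : S.Nonempty) : least (S.image (· + 1)) = least S + 1 := by
  refine least_eq (Finset.mem_image_of_mem _ (least_mem h)) ?_
  intro t ht
  obtain ⟨u, hu, rfl⟩ := Finset.mem_image.1 ht
  have := least_le hu
  omega

lemma prev_succ {S : Finset ℕ} {s : ℕ} (h : S.Nonempty) (hs : least S < s) :
    prev (S.image (· + 1)) (s + 1) = prev S s + 1 := by
  unfold prev
  apply le_antisymm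
  · refine Finset.sup_le fun t ht => ?_
    rw [Finset.mem_filter] at ht
    obtain ⟨u, hu, rfl⟩ := Finset.mem_image.1 ht.1
    have : u ≤ (S.filter (· < s)).sup id :=
      Finset.le_sup (f := id) (Finset.mem_filter.2 ⟨hu, by have := ht.2; omega⟩)
    simpa using this
  · obtain ⟨u, hu, he⟩ := Finset.exists_mem_eq_sup (S.filter (· < s))
      ⟨_, Finset.mem_filter.2 ⟨least_mem h, hs⟩⟩ id
    rw [he]
    rw [Finset.mem_filter] at hu
    exact Finset.le_sup (f := id) (b := u + 1)
      (Finset.mem_filter.2 ⟨Finset.mem_image_of_mem _ hu.1, by have := hu.2; omega⟩)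

lemma prev_least (S : Finset ℕ) : prev S (least S) = 0 := by
  unfold prev
  rw [Finset.filter_eq_empty_iff.2, Finset.sup_empty]; · rfl
  intro t ht
  have := least_le ht
  omega

lemma prev_insert (S : Finset ℕ) (s : ℕ) : prev (insert 0 S) s = prev S s := by
  unfold prev
  rw [Finset.filter_insert]
  split_ifs
  · rw [Finset.sup_insert]; simp
  · rfl

lemma erase_succ (S : Finset ℕ) (t : ℕ) :
    (S.image (· + 1)).erase (t + 1) = (S.erase t).image (· + 1) := by
  rw [Finset.image_erase (add_left_injective 1)]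

lemma mmap_sum (f : ℕ → ℕ) (T : Finset ℕ) (g : ℕ → Multiset ℕ) :
    (∑ s ∈ T, g s).map f = ∑ s ∈ T, (g s).map f :=
  map_sum (Multiset.mapAddMonoidHom f) g T

lemma jt_succ (d : ℕ) {S : Finset ℕ} (h : S.Nonempty) :
    jt d (S.image (· + 1)) = (jt (d + 1) S).map (· + 1) := by
  unfold jt
  rw [least_succ h, erase_succ, Finset.sum_image (fun _ _ _ _ h => add_left_injective 1 h),
    Multiset.map_add, Multiset.map_replicate, mmap_sum]
  congr 1
  · congr 1; ring
  · refine Finset.sum_congr rfl fun s hs => ?_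
    rw [Finset.mem_erase] at hs
    have h1 : least S < s := lt_of_le_of_ne (least_le hs.2) (Ne.symm hs.1)
    rw [prev_succ h h1, Multiset.map_replicate]
    congr 1
    · simp only; omega
    · ring

lemma jt_insert_zero (d : ℕ) {S : Finset ℕ} (h : S.Nonempty) (h0 : 0 ∉ S) :
    jt d (insert 0 S) = Multiset.replicate d 0 + (Multiset.replicate (least S) (d + least S) +
      ∑ s ∈ S.erase (least S), Multiset.replicate (s - prev S s) (d + prev S s + s)) := by
  unfold jt
  rw [least_of_zero (Finset.mem_insert_self _ _), Finset.erase_insert h0, add_zero]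
  simp only [prev_insert]
  rw [← Finset.add_sum_erase _ _ (least_mem h), prev_least]
  simp

lemma jt_zero_insert {S : Finset ℕ} (h : S.Nonempty) : jt 0 (insert 0 S) = jt 0 S := by
  by_cases h0 : 0 ∈ S
  · rw [Finset.insert_eq_of_mem h0]
  · rw [jt_insert_zero 0 h h0, jt]; simp

lemma jt_insert (d : ℕ) {S : Finset ℕ} (h : S.Nonempty) :
    jt d (insert 0 (S.image (· + 1))) =
      Multiset.replicate d 0 + (jt 1 S).map (· + (d + 1)) := by
  rw [jt_insert_zero d (h.image _) (by simp)]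
  unfold jt
  rw [least_succ h, erase_succ, Finset.sum_image (fun _ _ _ _ h => add_left_injective 1 h),
    Multiset.map_add, Multiset.map_replicate, mmap_sum]
  congr 2
  · congr 1 <;> ring
  · refine Finset.sum_congr rfl fun s hs => ?_
    rw [Finset.mem_erase] at hs
    have h1 : least S < s := lt_of_le_of_ne (least_le hs.2) (Ne.symm hs.1)
    rw [prev_succ h h1, Multiset.map_replicate]
    congr 1
    · simp only; omega
    · ring

lemma smin_add (P Q : Multiset ℕ) (m : ℕ) : smin (P + Q) m = smin P m + smin Q m := by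
  simp [smin]

lemma smin_replicate (n p m : ℕ) : smin (Multiset.replicate n p) m = n * min p m := by
  simp [smin]

lemma smin_shift (P : Multiset ℕ) (e m : ℕ) :
    smin (P.map (· + e)) (e + m) = e * P.card + smin P m := by
  induction P using Multiset.induction_on with
  | empty => simp [smin]
  | cons a s ih =>
    simp only [smin, Multiset.map_cons, Multiset.sum_cons, Multiset.card_cons] at ih ⊢
    rw [ih, mul_add]; omega

lemma smin_shift_le (P : Multiset ℕ) {e m : ℕ} (h : m ≤ e) :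
    smin (P.map (· + e)) m = m * P.card := by
  induction P using Multiset.induction_on with
  | empty => simp [smin]
  | cons a s ih =>
    simp only [smin, Multiset.map_cons, Multiset.sum_cons, Multiset.card_cons] at ih ⊢
    rw [ih, mul_add]; omega

lemma sum_shift (P : Multiset ℕ) (e : ℕ) : (P.map (· + e)).sum = e * P.card + P.sum := by
  induction P using Multiset.induction_on with
  | empty => simp
  | cons a s ih =>
    simp only [Multiset.map_cons, Multiset.sum_cons, Multiset.card_cons] at ih ⊢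
    rw [ih, mul_add]; omega

lemma smin_of_sum_le (P : Multiset ℕ) {m : ℕ} (h : P.sum ≤ m) : smin P m = P.sum := by
  unfold smin
  congr 1
  conv_rhs => rw [← Multiset.map_id P]
  refine Multiset.map_congr rfl fun p hp => ?_
  have := Multiset.single_le_sum (s := P) (fun _ _ => Nat.zero_le _) p hp
  simp only [id]; omega

end Pool.Agent.Work.MP_3e4917_al
end

-- merged part: Pool.Agent.Work.MP_3e4917_al.Euclid
section
namespace Pool.Agent.Work.MP_3e4917_al

open Polynomial

variable {K : Type*} [Field K]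

/-- injectivity of a truncated Sylvester map -/
def Z (p s : ℕ) (f g : K[X]) : Prop :=
  ∀ u v : K[X], u.degree < p → v.degree < s → X ^ (p + s) ∣ u * f + v * g → u = 0 ∧ v = 0

lemma Z.symm {p s : ℕ} {f g : K[X]} (h : Z p s f g) : Z s p g f := by
  intro u v hu hv hd
  rw [add_comm s p, add_comm (u * g)] at hd
  exact (h v u hv hu hd).symm

lemma Z_comm {p s : ℕ} {f g : K[X]} : Z p s f g ↔ Z s p g f := ⟨Z.symm, Z.symm⟩

lemma degree_mul_lt {u v : K[X]} {m n : ℕ} (hu : u.degree < m) (hv : v.natDegree ≤ n) :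
    (u * v).degree < (m + n : ℕ) := by
  by_cases hu0 : u = 0
  · simp [hu0]
  by_cases hv0 : v = 0
  · simp [hv0]
  rw [← natDegree_lt_iff_degree_lt hu0] at hu
  rw [← natDegree_lt_iff_degree_lt (mul_ne_zero hu0 hv0), natDegree_mul hu0 hv0]
  omega

lemma degree_lt_mono {u : K[X]} {m n : ℕ} (hu : u.degree < m) (h : m ≤ n) : u.degree < n :=
  hu.trans_le (by exact_mod_cast h)

lemma degree_lt_of_mul {e n : ℕ} {u : K[X]} (h : (X ^ e * u : K[X]).degree < (e + n : ℕ)) :
    u.degree < n := by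
  by_cases hu0 : u = 0
  · simp [hu0]
  have h0 : (X ^ e : K[X]) ≠ 0 := pow_ne_zero _ X_ne_zero
  rw [← natDegree_lt_iff_degree_lt (mul_ne_zero h0 hu0), natDegree_mul h0 hu0] at h
  rw [← natDegree_lt_iff_degree_lt hu0]
  simp at h; omega

lemma Z_sub {p s d : ℕ} {f g w : K[X]} (hw : w.natDegree ≤ d) (hp : s + d ≤ p)
    (h : Z p s f g) : Z p s f (g - w * f) := by
  intro u v hu hv hd
  have h1 : (u - v * w).degree < p :=
    (degree_sub_le _ _).trans_lt (max_lt hu (degree_lt_mono (degree_mul_lt hv hw) hp))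
  obtain ⟨h2, rfl⟩ := h (u - v * w) v h1 hv (by convert hd using 1; ring)
  simpa using h2

lemma Z_sub_iff {p s d : ℕ} {f g w : K[X]} (hw : w.natDegree ≤ d) (hp : s + d ≤ p) :
    Z p s f (g - w * f) ↔ Z p s f g := by
  refine ⟨fun h => ?_, Z_sub hw hp⟩
  have := Z_sub (w := -w) (by simpa using hw) hp h
  simpa using this

lemma not_X_dvd {f : K[X]} : ¬ X ∣ f ↔ f.coeff 0 ≠ 0 := by rw [X_dvd_iff]

lemma Z_pow_iff {p e s : ℕ} {f g : K[X]} (hf : ¬ X ∣ f) :
    Z (e + p) s f (X ^ e * g) ↔ Z p s f g := by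
  have hX : (X ^ e : K[X]) ≠ 0 := pow_ne_zero _ X_ne_zero
  constructor
  · intro h u v hu hv hd
    have h1 : (X ^ e * u : K[X]).degree < (e + p : ℕ) := by
      rw [mul_comm, add_comm]; exact degree_mul_lt hu (by simp)
    obtain ⟨h2, h3⟩ := h (X ^ e * u) v h1 hv (by
      obtain ⟨c, hc⟩ := hd
      exact ⟨c, by rw [add_assoc, pow_add]; linear_combination X ^ e * hc⟩)
    exact ⟨(mul_eq_zero.1 h2).resolve_left hX, h3⟩
  · intro h u v hu hv hd
    obtain ⟨c, hc⟩ := hd
    have h1 : X ^ e ∣ u * f := ⟨X ^ (p + s) * c - v * g, by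
      rw [add_assoc, pow_add] at hc; linear_combination hc⟩
    obtain ⟨u', rfl⟩ := prime_X.pow_dvd_of_dvd_mul_right e hf h1
    obtain ⟨h2, h3⟩ := h u' v (degree_lt_of_mul hu) hv ⟨c, mul_left_cancel₀ hX (by
      rw [add_assoc, pow_add] at hc; linear_combination hc)⟩
    simp [h2, h3]

lemma Z_zero {p : ℕ} {f g : K[X]} (hf : ¬ X ∣ f) : Z p 0 f g := by
  intro u v hu hv hd
  have hv0 : v = 0 := by simpa using hv
  subst hv0
  simp only [add_zero, zero_mul] at hd
  exact ⟨eq_zero_of_dvd_of_degree_lt (prime_X.pow_dvd_of_dvd_mul_right p hf hd) (by simpa using hu),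
    rfl⟩

lemma not_Z_of_dvd {p s : ℕ} {f g : K[X]} (hp : 1 ≤ p) (hf : X ^ (s + 1) ∣ f) : ¬ Z p s f g := by
  intro h
  obtain ⟨p, rfl⟩ := Nat.exists_eq_add_of_le' hp
  obtain ⟨c, rfl⟩ := hf
  have := (h (X ^ p) 0 (by simp; exact_mod_cast Nat.lt_succ_self p) (by simp)
    ⟨c, by ring⟩).1
  exact pow_ne_zero _ X_ne_zero this

lemma Z.ne_zero {p s : ℕ} {f g : K[X]} (h : Z p s f g) (hp : 1 ≤ p) : f ≠ 0 := by
  rintro rfl
  exact not_Z_of_dvd hp (dvd_zero _) h

open Classical in
/-- the set of indices at which the truncated Sylvester map is injective -/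
noncomputable def SZ (a b : ℕ) (f g : K[X]) : Finset ℕ :=
  (Finset.range (a + 1)).filter (fun s => Z (b - a + s) s f g)

lemma mem_SZ {a b s : ℕ} {f g : K[X]} : s ∈ SZ a b f g ↔ s ≤ a ∧ Z (b - a + s) s f g := by
  simp [SZ]

lemma top_mem_SZ {a b : ℕ} {f g : K[X]} (hab : a ≤ b) (h : Z b a f g) : a ∈ SZ a b f g :=
  mem_SZ.2 ⟨le_rfl, by rwa [Nat.sub_add_cancel hab]⟩

/-- the conclusion of the Euclidean induction -/
def Concl (a b : ℕ) (f g : K[X]) : Prop :=
  X ^ least (SZ a b f g) ∣ f ∧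
  (∃ M, (MvPolynomial.X 0 : MvPolynomial (Fin 2) K) ^ M ∈
    Ideal.span {f.homogenize a, g.homogenize b}) ∧
  (∀ m, lam K (Ideal.span {f.homogenize a, g.homogenize b, MvPolynomial.X 0 ^ m}) =
    smin (jt (b - a) (SZ a b f g)) m) ∧
  (jt (b - a) (SZ a b f g)).card = b ∧ (jt (b - a) (SZ a b f g)).sum = a * b

lemma homog_X_pow_mul (e n : ℕ) {r : K[X]} (hr : r.natDegree ≤ n) :
    (X ^ e * r).homogenize (e + n) = MvPolynomial.X 0 ^ e * r.homogenize n := by
  rw [homogenize_mul _ _ (by simp) hr]; simp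

lemma step_beta {a d : ℕ}
    (IH : ∀ f g : K[X], f.natDegree ≤ a → g.natDegree ≤ a + 1 → Z (a + 1) a f g →
      Concl a (a + 1) f g) {f g : K[X]} (hf : f.natDegree ≤ a + 1) (hg : g.natDegree ≤ a + 1 + d)
    (hZ : Z (a + 1 + d) (a + 1) f g) (hX : ¬ X ∣ f) : Concl (a + 1) (a + 1 + d) f g := by
  have hcop : IsCoprime (X ^ (d + 1) : K[X]) f :=
    ((prime_X.irreducible.coprime_iff_not_dvd).2 hX).pow_left
  obtain ⟨α, β, hαβ⟩ := hcop
  have hm : (X ^ (d + 1) : K[X]).Monic := monic_X_pow _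
  set w := (g * β) %ₘ (X ^ (d + 1)) with hw
  have hwd : w.natDegree ≤ d := by
    have := degree_modByMonic_lt (g * β) hm
    rw [degree_X_pow] at this
    exact natDegree_le_iff_degree_le.2 (Order.le_of_lt_succ (by exact_mod_cast this))
  obtain ⟨r, hr⟩ : X ^ (d + 1) ∣ g - w * f := by
    have := modByMonic_add_div (g * β) (X ^ (d + 1))
    exact ⟨g * α + (g * β /ₘ X ^ (d + 1)) * f, by
      rw [hw]; linear_combination -g * hαβ - f * this⟩
  have hrd : r.natDegree ≤ a := by
    by_cases hr0 : r = 0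
    · simp [hr0]
    have h1 : (g - w * f).natDegree ≤ a + 1 + d :=
      (natDegree_sub_le _ _).trans (max_le hg (natDegree_mul_le.trans (by omega)))
    rw [hr, natDegree_mul hm.ne_zero hr0, natDegree_X_pow] at h1
    omega
  have hZs : ∀ s, Z (d + (s + 1)) (s + 1) f g ↔ Z (1 + s) s r f := by
    intro s
    rw [← Z_sub_iff hwd (by omega), hr, show d + (s + 1) = (d + 1) + s by ring, Z_pow_iff hX,
      Z_comm, add_comm]
  have hZ' : Z (a + 1) a r f := by
    rw [add_comm a 1, ← hZs, add_comm]; exact hZ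
  have hS : SZ (a + 1) (a + 1 + d) f g = insert 0 ((SZ a (a + 1) r f).image (· + 1)) := by
    ext s
    rcases s with _ | s
    · simp [mem_SZ, Z_zero hX]
    · simp [mem_SZ, hZs]
  obtain ⟨-, ⟨M, hM⟩, hl, hc, hs⟩ := IH r f hrd hf hZ'
  have hne : (SZ a (a + 1) r f).Nonempty := ⟨_, top_mem_SZ (Nat.le_succ a) hZ'⟩
  have hG : g.homogenize (a + 1 + d) = w.homogenize d * f.homogenize (a + 1) +
      MvPolynomial.X 0 ^ (d + 1) * r.homogenize a := by
    rw [← homog_X_pow_mul _ _ hrd, ← homogenize_mul _ _ hwd hf, ← hr,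
      show d + 1 + a = a + 1 + d by ring, show d + (a + 1) = a + 1 + d by ring,
      ← homogenize_add]
    congr 1; ring
  have hsp : ∀ t, Ideal.span {f.homogenize (a + 1), g.homogenize (a + 1 + d), t} =
      Ideal.span {f.homogenize (a + 1), MvPolynomial.X 0 ^ (d + 1) * r.homogenize a, t} := by
    intro t
    ext z
    simp only [mem_span_triple, hG]
    constructor
    · rintro ⟨x, y, z, rfl⟩
      exact ⟨x + y * w.homogenize d, y, z, by ring⟩
    · rintro ⟨x, y, z, rfl⟩
      exact ⟨x - y * w.homogenize d, y, z, by ring⟩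
  have hf0 := not_X_dvd.1 hX
  simp only [add_tsub_cancel_left] at hl hc hs
  refine ⟨?_, ?_, ?_, ?_, ?_⟩
  · rw [hS, least_of_zero (Finset.mem_insert_self _ _)]; simp
  · obtain ⟨x, y, hxy⟩ := Ideal.mem_span_pair.1 hM
    refine ⟨d + 1 + M, Ideal.mem_span_pair.2
      ⟨MvPolynomial.X 0 ^ (d + 1) * y - x * w.homogenize d, x, ?_⟩⟩
    rw [hG, pow_add _ (d + 1), ← hxy]; ring
  · intro m
    rw [hsp, hS, add_tsub_cancel_left, jt_insert _ hne, smin_add, smin_replicate]
    rcases le_total m (d + 1) with h | h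
    · rw [span_small _ _ _ h, lam_homog hf hf0, smin_shift_le _ h, hc]; simp
    · obtain ⟨m, rfl⟩ := Nat.exists_eq_add_of_le h
      rw [lam_step MvPolynomial.X_prime (not_dvd_homog hf hf0), lam_homog hf hf0,
        span_triple_comm, hl, smin_shift, hc]
      simp
  · rw [hS, add_tsub_cancel_left, jt_insert _ hne]; simp [hc]; ring
  · rw [hS, add_tsub_cancel_left, jt_insert _ hne, Multiset.sum_add, sum_shift, hc, hs]
    simp; ring

lemma not_X_dvd_of_Z {a b : ℕ} {f g : K[X]} (hf : f.natDegree ≤ a + 1) (hg : g.natDegree ≤ b)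
    (hb : 1 ≤ b) (hZ : Z b (a + 1) f g) (hX : X ∣ f) : ¬ X ∣ g := by
  rintro ⟨g', rfl⟩
  obtain ⟨f', rfl⟩ := hX
  have h1 : g'.degree < b := by
    by_cases h0 : g' = 0
    · simp [h0]
    rw [natDegree_X_mul h0] at hg
    rw [← natDegree_lt_iff_degree_lt h0]; omega
  have h2 : (-f').degree < (a + 1 : ℕ) := by
    by_cases h0 : f' = 0
    · simp [h0]
    rw [natDegree_X_mul h0] at hf
    rw [degree_neg, ← natDegree_lt_iff_degree_lt h0]; omega
  have := (hZ g' (-f') h1 h2 ⟨0, by ring⟩).2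
  rw [neg_eq_zero] at this
  exact hZ.ne_zero hb (by simp [this])

lemma step_alpha {a d : ℕ}
    (IH : ∀ f g : K[X], f.natDegree ≤ a → g.natDegree ≤ a + 1 + d + 1 → Z (a + 1 + d + 1) a f g →
      Concl a (a + 1 + d + 1) f g) {f g : K[X]} (hf : f.natDegree ≤ a + 1)
    (hg : g.natDegree ≤ a + 1 + d + 1)
    (hZ : Z (a + 1 + d + 1) (a + 1) f g) (hX : X ∣ f) : Concl (a + 1) (a + 1 + d + 1) f g := by
  have hXg := not_X_dvd_of_Z hf hg (by omega) hZ hX
  obtain ⟨f', rfl⟩ := hX
  have hf' : f'.natDegree ≤ a := by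
    by_cases h0 : f' = 0
    · simp [h0]
    rw [natDegree_X_mul h0] at hf; omega
  have hZs : ∀ p s, Z p (s + 1) (X * f') g ↔ Z p s f' g := by
    intro p s
    rw [Z_comm, add_comm, ← pow_one X, Z_pow_iff hXg, Z_comm]
  have e1 : a + 1 + d + 1 - (a + 1) = d + 1 := by omega
  have e2 : a + 1 + d + 1 - a = d + 1 + 1 := by omega
  have hS : SZ (a + 1) (a + 1 + d + 1) (X * f') g =
      (SZ a (a + 1 + d + 1) f' g).image (· + 1) := by
    ext s
    rcases s with _ | s
    · simp only [mem_SZ, e1]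
      simp [not_Z_of_dvd (p := d + 1) (s := 0) (f := X * f') (g := g) (by omega) (by simp)]
    · simp only [mem_SZ, e1, e2, hZs, Finset.mem_image, add_left_inj, exists_eq_right]
      rw [show d + 1 + (s + 1) = d + 1 + 1 + s by ring]; simp
  have hZ' := (hZs _ _).1 hZ
  obtain ⟨hd, ⟨M, hM⟩, hl, hc, hs⟩ := IH f' g hf' hg hZ'
  have hne : (SZ a (a + 1 + d + 1) f' g).Nonempty := ⟨_, top_mem_SZ (by omega) hZ'⟩
  have hF : (X * f').homogenize (a + 1) = MvPolynomial.X 0 ^ 1 * f'.homogenize a := by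
    rw [← homog_X_pow_mul _ _ hf', add_comm, pow_one]
  have hg0 := not_X_dvd.1 hXg
  rw [e2] at hc hs
  simp only [e2] at hl
  refine ⟨?_, ?_, ?_, ?_, ?_⟩
  · rw [hS, least_succ hne, pow_succ']; exact mul_dvd_mul_left _ hd
  · obtain ⟨x, y, hxy⟩ := Ideal.mem_span_pair.1 hM
    refine ⟨1 + M, Ideal.mem_span_pair.2 ⟨x, MvPolynomial.X 0 * y, ?_⟩⟩
    rw [hF, pow_add, ← hxy]; ring
  · intro m
    rw [span_triple_comm, hF, hS, e1, jt_succ _ hne]
    rcases le_total m 1 with h | h
    · rw [span_small _ _ _ h, lam_homog hg hg0, smin_shift_le _ h, hc]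
    · obtain ⟨m, rfl⟩ := Nat.exists_eq_add_of_le h
      rw [lam_step MvPolynomial.X_prime (not_dvd_homog hg hg0), lam_homog hg hg0,
        span_triple_comm, hl, smin_shift, hc]
      simp
  · rw [hS, e1, jt_succ _ hne]; simp [hc]
  · rw [hS, e1, jt_succ _ hne, sum_shift, hc, hs]; ring

theorem concl (a : ℕ) : ∀ (b : ℕ) (f g : K[X]), a ≤ b → 1 ≤ b → f.natDegree ≤ a →
    g.natDegree ≤ b → Z b a f g → Concl a b f g := by
  induction a with
  | zero =>
    intro b f g _ hb hf hg hZ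
    have hf0 := hZ.ne_zero hb
    obtain ⟨c, rfl⟩ : ∃ c, f = C c := ⟨_, eq_C_of_natDegree_le_zero hf⟩
    have hc : c ≠ 0 := by simpa using hf0
    have hS : SZ 0 b (C c) g = {0} := by
      ext s
      simp only [mem_SZ, Finset.mem_singleton, nonpos_iff_eq_zero, and_iff_left_iff_imp]
      rintro rfl; simpa using hZ
    have hj : jt b {0} = Multiset.replicate b 0 := by
      rw [jt, least_of_zero (Finset.mem_singleton_self 0)]; simp
    have hu : IsUnit ((C c : K[X]).homogenize 0) := by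
      simp only [homogenize_C, pow_zero, mul_one]
      exact (IsUnit.mk0 c hc).map MvPolynomial.C
    refine ⟨?_, ⟨0, ?_⟩, ?_, ?_, ?_⟩
    · rw [hS, least_of_zero (Finset.mem_singleton_self 0)]; simp
    · rw [Ideal.eq_top_of_isUnit_mem _ (Ideal.subset_span (Set.mem_insert _ _)) hu]; trivial
    · intro m
      rw [Ideal.eq_top_of_isUnit_mem _ (Ideal.subset_span (Set.mem_insert _ _)) hu, hS,
        tsub_zero, hj, smin_replicate, lam]
      simp [rank_subsingleton']
    · rw [hS, tsub_zero, hj]; simp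
    · rw [hS, tsub_zero, hj]; simp
  | succ a ih =>
    intro b f g hab hb hf hg hZ
    obtain ⟨d, rfl⟩ := Nat.exists_eq_add_of_le hab
    have IH := fun f g => ih (a + 1) f g (Nat.le_succ a) (by omega)
    by_cases hX : X ∣ f
    · rcases d with _ | d
      · have hXg := not_X_dvd_of_Z hf hg hb hZ hX
        obtain ⟨-, hM, hl, hc, hs⟩ := step_beta (d := 0) IH hg hf hZ.symm hXg
        have hS : SZ (a + 1) (a + 1 + 0) f g = SZ (a + 1) (a + 1 + 0) g f := by
          ext s; simp only [mem_SZ, add_zero, tsub_self, zero_add]; rw [Z_comm]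
        refine ⟨?_, ?_, ?_, ?_, ?_⟩
        · rw [hS, least_of_zero (mem_SZ.2 ⟨by omega, Z_zero hXg⟩)]; simp
        · rw [Set.pair_comm]; exact hM
        · intro m; rw [hS, span_triple_comm]; exact hl m
        · rw [hS]; exact hc
        · rw [hS]; exact hs
      · exact step_alpha (fun f g => ih _ f g (by omega) (by omega)) hf hg hZ hX
    · exact step_beta IH hf hg hZ hX

end Pool.Agent.Work.MP_3e4917_al
end

-- merged part: Pool.Agent.Work.MP_3e4917_al.Hankel
section
namespace Pool.Agent.Work.MP_3e4917_al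

open Polynomial

variable {K : Type*} [Field K]

/-- the linear functional with moments `c` -/
noncomputable def Lc (c : ℕ → K) : K[X] →ₗ[K] K := (basisMonomials K).constr K c

lemma Lc_X_pow (c : ℕ → K) (i : ℕ) : Lc c (X ^ i) = c i := by
  have := (basisMonomials K).constr_basis K c i
  rw [← monomial_one_right_eq_X_pow]
  exact this

lemma Lc_C_mul (c : ℕ → K) (a : K) (p : K[X]) : Lc c (C a * p) = a * Lc c p := by
  rw [C_mul', map_smul, smul_eq_mul]

lemma as_sum_fin {n : ℕ} {p : K[X]} (hp : p.degree < n) :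
    p = ∑ i : Fin n, C (p.coeff i) * X ^ (i : ℕ) := by
  rw [Fin.sum_univ_eq_sum_range (fun i => C (p.coeff i) * X ^ i) n]
  by_cases h0 : p = 0
  · simp [h0]
  exact p.as_sum_range_C_mul_X_pow' ((natDegree_lt_iff_degree_lt h0).2 hp)

/-- `φ` is orthogonal to all polynomials of degree `< n` -/
def Ann (c : ℕ → K) (n : ℕ) (φ : K[X]) : Prop := ∀ w : K[X], w.degree < n → Lc c (φ * w) = 0

lemma ann_iff {c : ℕ → K} {n : ℕ} {φ : K[X]} :
    Ann c n φ ↔ ∀ i < n, Lc c (φ * X ^ i) = 0 := by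
  constructor
  · intro h i hi
    exact h _ (by simpa using hi)
  · intro h w hw
    rw [as_sum_fin hw, Finset.mul_sum, map_sum]
    refine Finset.sum_eq_zero fun i _ => ?_
    rw [mul_left_comm, Lc_C_mul, h i i.2, mul_zero]

lemma Ann.mono {c : ℕ → K} {n n' : ℕ} {φ : K[X]} (h : Ann c n φ) (hn : n' ≤ n) : Ann c n' φ :=
  fun w hw => h w (degree_lt_mono hw hn)

lemma Ann.mul {c : ℕ → K} {n n' r : ℕ} {φ ψ : K[X]} (h : Ann c n φ) (hψ : ψ.natDegree ≤ r)
    (hn : n' + r ≤ n) : Ann c n' (φ * ψ) := fun w hw => by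
  rw [mul_assoc, mul_comm ψ]
  exact h _ (degree_lt_mono (degree_mul_lt hw hψ) hn)

/-- Hankel matrix -/
def HM {A : Type*} (c : ℕ → A) (m n k : ℕ) : Matrix (Fin n) (Fin k) A :=
  Matrix.of fun i j => c (m + i + j)

lemma HM_mulVec (c : ℕ → K) (m n k : ℕ) (v : Fin k → K) (i : Fin n) :
    (HM c m n k).mulVec v i = Lc c (X ^ m * (∑ j : Fin k, C (v j) * X ^ (j : ℕ)) * X ^ (i : ℕ)) := by
  simp only [Finset.mul_sum, Finset.sum_mul, map_sum, Matrix.mulVec, dotProduct, HM,
    Matrix.of_apply]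
  refine Finset.sum_congr rfl fun j _ => ?_
  rw [show X ^ m * (C (v j) * X ^ (j : ℕ)) * X ^ (i : ℕ) = C (v j) * X ^ (m + i + j) by ring,
    Lc_C_mul, Lc_X_pow, mul_comm]

lemma ker_iff (c : ℕ → K) (m n k : ℕ) :
    (∃ v ≠ 0, (HM c m n k).mulVec v = 0) ↔
      ∃ q : K[X], q ≠ 0 ∧ q.degree < k ∧ Ann c n (X ^ m * q) := by
  constructor
  · rintro ⟨v, hv, h⟩
    refine ⟨∑ j : Fin k, C (v j) * X ^ (j : ℕ), ?_, degree_sum_fin_lt v, ?_⟩
    · intro h0
      apply hv
      ext j
      have := congrArg (fun p => coeff p j) h0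
      simpa [finsetSum_coeff, coeff_X_pow, Fin.val_inj] using this
    · rw [ann_iff]
      intro i hi
      rw [← HM_mulVec c m n k v ⟨i, hi⟩, h]; rfl
  · rintro ⟨q, hq, hd, h⟩
    refine ⟨fun j => q.coeff j, ?_, ?_⟩
    · intro h0
      apply hq
      rw [as_sum_fin hd]
      refine Finset.sum_eq_zero fun j _ => ?_
      rw [show q.coeff j = 0 from congrFun h0 j]; simp
    · ext i
      rw [HM_mulVec, ← as_sum_fin hd]
      exact ann_iff.1 h i i.2

/-- nondegeneracy of a square Hankel block -/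
def HN (c : ℕ → K) (m k : ℕ) : Prop := ∀ h : K[X], h.degree < k → Ann c k (X ^ m * h) → h = 0

lemma det_ne_zero_iff (c : ℕ → K) (m k : ℕ) : (HM c m k k).det ≠ 0 ↔ HN c m k := by
  rw [Ne, ← Matrix.exists_mulVec_eq_zero_iff, ker_iff]
  simp only [HN, not_exists, not_and]
  exact ⟨fun H h hd ha => by_contra fun h0 => H h h0 hd ha, fun H q h0 hd ha => h0 (H q hd ha)⟩

lemma Lc_lead {c : ℕ → K} {p : K[X]} {m n : ℕ} (hp : p.natDegree ≤ n)
    (hc : ∀ i < n, c (m + i) = 0) : Lc c (X ^ m * p) = p.coeff n * c (m + n) := by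
  rw [p.as_sum_range_C_mul_X_pow' (Nat.lt_succ_of_le hp), Finset.sum_range_succ, mul_add,
    map_add, Finset.mul_sum, map_sum, Finset.sum_eq_zero, zero_add, mul_left_comm, Lc_C_mul,
    ← pow_add, Lc_X_pow, ← Finset.sum_range_succ (fun i => C (p.coeff i) * X ^ i),
    ← p.as_sum_range_C_mul_X_pow' (Nat.lt_succ_of_le hp)]
  intro i hi
  rw [mul_left_comm, Lc_C_mul, ← pow_add, Lc_X_pow, hc i (Finset.mem_range.1 hi), mul_zero]

/-- a polynomial cannot be orthogonal across the first nonzero moment -/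
lemma not_ann_first {c : ℕ → K} {h : K[X]} {m k n : ℕ} (hc : ∀ i < k, c (m + i) = 0)
    (hk : c (m + k) ≠ 0) (h0 : h ≠ 0) (hd : h.natDegree ≤ k) (hn : k < h.natDegree + n) :
    ¬ Ann c n (X ^ m * h) := by
  intro ha
  have h1 := ann_iff.1 ha (k - h.natDegree) (by omega)
  have h2 : (h * X ^ (k - h.natDegree)).natDegree = k := by
    rw [natDegree_mul_X_pow _ h0]; omega
  rw [mul_assoc, Lc_lead h2.le hc] at h1
  have h3 : (h * X ^ (k - h.natDegree)).coeff k ≠ 0 := by
    have : (h * X ^ (k - h.natDegree)).leadingCoeff ≠ 0 := by simp [h0]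
    rwa [leadingCoeff, h2] at this
  exact mul_ne_zero h3 hk h1

lemma HN_of_first {c : ℕ → K} {m k : ℕ} (hc : ∀ i < k, c (m + i) = 0) (hk : c (m + k) ≠ 0) :
    HN c m (k + 1) := by
  intro h hd ha
  by_contra h0
  have := (natDegree_lt_iff_degree_lt h0).2 hd
  exact not_ann_first hc hk h0 (by omega) (by omega) ha

lemma first_zero {c : ℕ → K} {n : ℕ} (h : ∀ k < n, ¬ HN c 0 (k + 1)) : ∀ i < n, c i = 0 := by
  intro i
  induction i using Nat.strong_induction_on with
  | _ i ih =>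
    intro hi
    by_contra h0
    exact h i hi (HN_of_first (fun j hj => by simpa using ih j hj (by omega)) (by simpa using h0))

lemma bezout_deg {ψ₁ ψ₂ h : K[X]} {r₂ n₁ n₂ : ℕ} (hc : IsCoprime ψ₁ ψ₂) (h0 : ψ₁ ≠ 0)
    (h2 : ψ₂.natDegree ≤ r₂) (hn : r₂ ≤ n₁) (he : ψ₁.natDegree + n₁ = r₂ + n₂)
    (hh : h.degree < (ψ₁.natDegree + n₁ : ℕ)) :
    ∃ u v : K[X], u.degree < n₁ ∧ v.degree < n₂ ∧ h = u * ψ₁ + v * ψ₂ := by
  obtain ⟨α, β, hαβ⟩ := hc
  have hv : ((h * β) % ψ₁).degree < ψ₁.natDegree := by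
    rw [← degree_eq_natDegree h0]; exact degree_mod_lt _ h0
  have hdm := EuclideanDomain.div_add_mod (h * β) ψ₁
  have e : h = (h * α + (h * β) / ψ₁ * ψ₂) * ψ₁ + (h * β) % ψ₁ * ψ₂ := by
    linear_combination -h * hαβ - ψ₂ * hdm
  refine ⟨_, _, ?_, degree_lt_mono hv (by omega), e⟩
  set u := h * α + (h * β) / ψ₁ * ψ₂
  by_cases hu : u = 0
  · simp [hu]
  have h3 : (u * ψ₁).degree < (ψ₁.natDegree + n₁ : ℕ) := by
    rw [show u * ψ₁ = h - (h * β) % ψ₁ * ψ₂ by linear_combination -e]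
    exact (degree_sub_le _ _).trans_lt
      (max_lt hh (degree_lt_mono (degree_mul_lt hv h2) (by omega)))
  rw [← natDegree_lt_iff_degree_lt (mul_ne_zero hu h0), natDegree_mul hu h0] at h3
  rw [← natDegree_lt_iff_degree_lt hu]; omega

lemma eq_zero_of_Z_dvd {f g u v : K[X]} {a b : ℕ} (hf : f.natDegree ≤ a) (hg : g.natDegree ≤ b)
    (hu : u.degree < b) (hv : v.degree < a) (hd : X ^ (b + a) ∣ u * f + v * g) :
    u * f + v * g = 0 := by
  refine eq_zero_of_dvd_of_degree_lt hd ?_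
  rw [degree_X_pow]
  exact (degree_add_le _ _).trans_lt (max_lt (degree_mul_lt hu hf)
    (degree_lt_mono (degree_mul_lt hv hg) (by omega)))

lemma Z_of_coprime {ψ₁ ψ₂ : K[X]} {r₂ : ℕ} (hc : IsCoprime ψ₁ ψ₂) (h0 : ψ₁ ≠ 0)
    (h2 : ψ₂.natDegree ≤ r₂) : Z r₂ ψ₁.natDegree ψ₁ ψ₂ := by
  intro u v hu hv hd
  have h1 := eq_zero_of_Z_dvd le_rfl h2 hu hv hd
  have h3 : ψ₁ ∣ v := hc.dvd_of_dvd_mul_right ⟨-u, by linear_combination h1⟩
  have h4 : v = 0 := eq_zero_of_dvd_of_degree_lt h3 (by rwa [degree_eq_natDegree h0])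
  subst h4
  simpa [h0] using h1

lemma gcd_ann {c : ℕ → K} {φ₁ φ₂ : K[X]} {r₁ r₂ n₁ n₂ : ℕ} (h1 : φ₁ ≠ 0) (h2 : φ₂ ≠ 0)
    (d1 : φ₁.natDegree ≤ r₁) (d2 : φ₂.natDegree ≤ r₂) (a1 : Ann c n₁ φ₁) (a2 : Ann c n₂ φ₂)
    (hN : r₁ + n₁ = r₂ + n₂) :
    ∃ (e s₁ s₂ : ℕ) (d ψ₁ ψ₂ : K[X]), r₁ = e + s₁ ∧ r₂ = e + s₂ ∧ d.natDegree ≤ e ∧
      φ₁ = d * ψ₁ ∧ φ₂ = d * ψ₂ ∧ ψ₁.natDegree ≤ s₁ ∧ ψ₂.natDegree ≤ s₂ ∧
      (e = 0 → Z r₂ r₁ φ₁ φ₂) ∧ (s₂ ≤ n₁ → Ann c (s₁ + n₁) d) := by
  classical
  obtain ⟨ψ₁, ψ₂, e1, e2, hcop⟩ := extract_gcd φ₁ φ₂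
  set d := gcd φ₁ φ₂
  have hcop' : IsCoprime ψ₁ ψ₂ := (gcd_isUnit_iff _ _).1 hcop
  have hd0 : d ≠ 0 := by rintro h; simp [h] at e1; exact h1 e1
  have hψ1 : ψ₁ ≠ 0 := by rintro h; simp [h] at e1; exact h1 e1
  have hψ2 : ψ₂ ≠ 0 := by rintro h; simp [h] at e2; exact h2 e2
  have g1 : φ₁.natDegree = d.natDegree + ψ₁.natDegree := by rw [← natDegree_mul hd0 hψ1, ← e1]
  have g2 : φ₂.natDegree = d.natDegree + ψ₂.natDegree := by rw [← natDegree_mul hd0 hψ2, ← e2]
  have key : ∀ (s₁ s₂ : ℕ), ψ₁.natDegree ≤ s₁ → ψ₂.natDegree ≤ s₂ → Z s₂ s₁ ψ₁ ψ₂ →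
      d.natDegree = 0 → Z s₂ s₁ φ₁ φ₂ := by
    intro s₁ s₂ k1 k2 hZ hd u v hu hv hdv
    have h3 := eq_zero_of_Z_dvd (g1 ▸ by omega) (g2 ▸ by omega) hu hv hdv
    refine hZ u v hu hv ⟨0, mul_left_cancel₀ hd0 ?_⟩
    rw [e1, e2] at h3
    linear_combination h3
  have key2 : ∀ (w u v : K[X]), u.degree < n₁ → v.degree < n₂ → w = u * ψ₁ + v * ψ₂ →
      Lc c (d * w) = 0 := by
    intro w u v hu hv hw
    rw [show d * w = φ₁ * u + φ₂ * v by rw [hw, e1, e2]; ring, map_add, a1 u hu, a2 v hv, add_zero]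
  rcases le_total (r₁ - ψ₁.natDegree) (r₂ - ψ₂.natDegree) with h | h
  · refine ⟨r₁ - ψ₁.natDegree, ψ₁.natDegree, r₂ - (r₁ - ψ₁.natDegree), d, ψ₁, ψ₂, by omega,
      by omega, by omega, e1, e2, le_rfl, by omega, fun he => ?_, fun hs w hw => ?_⟩
    · have := key _ r₂ le_rfl (by omega) (Z_of_coprime hcop' hψ1 (by omega)) (by omega)
      rwa [show ψ₁.natDegree = r₁ by omega] at this
    · obtain ⟨u, v, hu, hv, hw⟩ := bezout_deg (n₂ := n₂) hcop' hψ1 (by omega) hs (by omega) hw
      exact key2 w u v hu hv hw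
  · refine ⟨r₂ - ψ₂.natDegree, r₁ - (r₂ - ψ₂.natDegree), ψ₂.natDegree, d, ψ₁, ψ₂, by omega,
      by omega, by omega, e1, e2, by omega, le_rfl, fun he => ?_, fun hs w hw => ?_⟩
    · have := key r₁ _ (by omega) le_rfl (Z_of_coprime hcop'.symm hψ2 (by omega)).symm (by omega)
      rwa [show ψ₂.natDegree = r₂ by omega] at this
    · obtain ⟨u, v, hu, hv, hw⟩ := bezout_deg (h := w) (r₂ := r₁ - (r₂ - ψ₂.natDegree)) (n₁ := n₂)
        (n₂ := n₁) hcop'.symm hψ2 (by omega) (by omega) (by omega)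
        (degree_lt_mono hw (by omega))
      exact key2 w v u hv hu (by rw [hw, add_comm])

end Pool.Agent.Work.MP_3e4917_al
end

-- merged part: Pool.Agent.Work.MP_3e4917_al.Duality
section
namespace Pool.Agent.Work.MP_3e4917_al

open Polynomial

variable {K : Type*} [Field K]

lemma finrank_degreeLT (n : ℕ) : Module.finrank K (degreeLT K n) = n := by
  simpa using Module.finrank_eq_card_basis (degreeLT.basis K n)

lemma degree_mul_lt' {u v : K[X]} {m n r : ℕ} (hu : u.degree < m) (hv : v.degree < n)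
    (h : m + n ≤ r + 1) : (u * v).degree < r := by
  by_cases hu0 : u = 0
  · simp [hu0]
  by_cases hv0 : v = 0
  · simp [hv0]
  rw [← natDegree_lt_iff_degree_lt hu0] at hu
  rw [← natDegree_lt_iff_degree_lt hv0] at hv
  rw [← natDegree_lt_iff_degree_lt (mul_ne_zero hu0 hv0), natDegree_mul hu0 hv0]
  omega

/-- no form of degree `a - 1` is orthogonal to everything -/
def Rk (c : ℕ → K) (a b : ℕ) : Prop := ∀ h : K[X], h.degree < a → Ann c b h → h = 0

theorem duality {c : ℕ → K} {a b s : ℕ} {f g : K[X]} (ha : 1 ≤ a) (hab : a ≤ b) (hs : s ≤ a)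
    (hf : f.natDegree ≤ a) (hg : g.natDegree ≤ b) (af : Ann c (b - 1) f) (ag : Ann c (a - 1) g)
    (hZ : Z b a f g) (hR : Rk c a b) :
    Z (b - a + s) s f g ↔ HN c (b - a + 2 * s) (a - s) := by
  constructor
  · intro H h₀ hd ha₀
    let Φ : (degreeLT K (b - a + s) × degreeLT K s × degreeLT K (a - s)) →ₗ[K] K[X] :=
      (LinearMap.mulRight K f ∘ₗ (degreeLT K _).subtype).coprod
        ((LinearMap.mulRight K g ∘ₗ (degreeLT K _).subtype).coprod
          (LinearMap.mulLeft K (X ^ (b - a + 2 * s)) ∘ₗ (degreeLT K _).subtype))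
    have hΦ : ∀ x, Φ x = x.1.1 * f + (x.2.1.1 * g + X ^ (b - a + 2 * s) * x.2.2.1) := fun x => rfl
    have hinj : Function.Injective Φ := by
      rw [injective_iff_map_eq_zero]
      rintro ⟨⟨u, hu⟩, ⟨v, hv⟩, ⟨h, hh⟩⟩ h0
      rw [hΦ] at h0
      obtain ⟨rfl, rfl⟩ := H u v (mem_degreeLT.1 hu) (mem_degreeLT.1 hv)
        ⟨-h, by rw [show b - a + s + s = b - a + 2 * s by ring]; linear_combination h0⟩
      have : h = 0 := by simpa using h0
      subst this
      rfl
    have hle : LinearMap.range Φ ≤ degreeLT K (b + s) := by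
      rintro _ ⟨⟨⟨u, hu⟩, ⟨v, hv⟩, ⟨h, hh⟩⟩, rfl⟩
      rw [hΦ]
      refine add_mem ?_ (add_mem ?_ ?_) <;> rw [mem_degreeLT] at *
      · exact degree_lt_mono (degree_mul_lt hu hf) (by omega)
      · exact degree_lt_mono (degree_mul_lt hv hg) (by omega)
      · rw [mul_comm]
        exact degree_lt_mono (degree_mul_lt hh (natDegree_X_pow _).le) (by omega)
    have heq : LinearMap.range Φ = degreeLT K (b + s) := by
      refine Submodule.eq_of_le_of_finrank_eq hle ?_
      rw [LinearMap.finrank_range_of_inj hinj]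
      simp only [Module.finrank_prod, finrank_degreeLT]
      omega
    refine hR h₀ (degree_lt_mono hd (by omega)) fun w hw => ?_
    have : w ∈ LinearMap.range Φ := by
      rw [heq, mem_degreeLT]; exact degree_lt_mono hw (by omega)
    obtain ⟨⟨⟨u, hu⟩, ⟨v, hv⟩, ⟨h, hh⟩⟩, rfl⟩ := this
    rw [mem_degreeLT] at hu hv hh
    rw [hΦ, show h₀ * (u * f + (v * g + X ^ (b - a + 2 * s) * h)) =
      f * (u * h₀) + g * (v * h₀) + X ^ (b - a + 2 * s) * h₀ * h by ring, map_add, map_add,
      af _ (degree_mul_lt' hu hd (by omega)), ag _ (degree_mul_lt' hv hd (by omega)), ha₀ h hh]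
    simp
  · intro H u v hu hv ⟨h, hh⟩
    rw [show b - a + s + s = b - a + 2 * s by ring] at hh
    have hd : h.degree < (a - s : ℕ) := by
      refine degree_lt_of_mul (e := b - a + 2 * s) ?_
      rw [← hh]
      exact (degree_add_le _ _).trans_lt (max_lt
        (degree_lt_mono (degree_mul_lt hu hf) (by omega))
        (degree_lt_mono (degree_mul_lt hv hg) (by omega)))
    have h0 : h = 0 := H h hd fun w hw => by
      rw [← hh, show (u * f + v * g) * w = f * (u * w) + g * (v * w) by ring, map_add,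
        af _ (degree_mul_lt' hu hw (by omega)), ag _ (degree_mul_lt' hv hw (by omega)), add_zero]
    exact hZ u v (degree_lt_mono hu (by omega)) (degree_lt_mono hv hs) ⟨0, by simp [hh, h0]⟩

lemma exists_second (c : ℕ → K) {a b : ℕ} (ha : 1 ≤ a) (hab : a ≤ b) (f : K[X]) :
    ∃ g : K[X], g.natDegree ≤ b ∧ Ann c (a - 1) g ∧
      ∀ w : K[X], w.natDegree ≤ b - a → g ≠ f * w := by
  by_contra hcon
  push Not at hcon
  let T : degreeLT K (b + 1) →ₗ[K] (Fin (a - 1) → K) :=
    LinearMap.pi fun i => Lc c ∘ₗ LinearMap.mulRight K (X ^ (i : ℕ)) ∘ₗ (degreeLT K _).subtype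
  let U : degreeLT K (b - a + 1) →ₗ[K] K[X] := LinearMap.mulLeft K f ∘ₗ (degreeLT K _).subtype
  have h1 := T.finrank_range_add_finrank_ker
  have h2 : Module.finrank K (LinearMap.range T) ≤ a - 1 := by
    simpa using (LinearMap.range T).finrank_le
  have h3 : Module.finrank K (LinearMap.range U) ≤ b - a + 1 := by
    simpa [finrank_degreeLT] using U.finrank_range_le
  have h4 : (LinearMap.ker T).map (degreeLT K _).subtype ≤ LinearMap.range U := by
    rintro _ ⟨⟨g, hg⟩, hT, rfl⟩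
    have hg' : g.natDegree ≤ b :=
      natDegree_le_iff_degree_le.2 (Order.le_of_lt_succ (by exact_mod_cast mem_degreeLT.1 hg))
    obtain ⟨w, hw, hgw⟩ := hcon g hg' (ann_iff.2 fun i hi => congrFun hT ⟨i, hi⟩)
    refine ⟨⟨w, mem_degreeLT.2 ?_⟩, hgw.symm⟩
    exact (degree_le_of_natDegree_le hw).trans_lt (by exact_mod_cast Nat.lt_succ_self _)
  have h5 := Submodule.finrank_mono h4
  rw [Submodule.finrank_map_subtype_eq] at h5
  rw [finrank_degreeLT] at h1
  omega

lemma Z_of_Rk {c : ℕ → K} {a b : ℕ} {f g : K[X]} (ha : 1 ≤ a) (hab : a ≤ b) (hf0 : f ≠ 0)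
    (hf : f.natDegree ≤ a) (hg : g.natDegree ≤ b) (af : Ann c (b - 1) f) (ag : Ann c (a - 1) g)
    (hR : Rk c a b) (hfg : ∀ w : K[X], w.natDegree ≤ b - a → g ≠ f * w) : Z b a f g := by
  have hg0 : g ≠ 0 := by simpa using hfg 0 (by simp)
  obtain ⟨e, s₁, s₂, d, ψ₁, ψ₂, e1, e2, hd, rfl, rfl, h1, h2, hZ, hA⟩ :=
    gcd_ann hf0 hg0 hf hg af ag (by omega)
  by_cases he : e = 0
  · exact hZ he
  exfalso
  have hd0 : d ≠ 0 := left_ne_zero_of_mul hf0
  by_cases hs : s₁ = 0
  · obtain ⟨t, rfl⟩ : ∃ t, ψ₁ = C t := ⟨_, eq_C_of_natDegree_le_zero (hs ▸ h1)⟩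
    have ht : t ≠ 0 := by simpa using right_ne_zero_of_mul hf0
    refine hfg (C t⁻¹ * ψ₂) ((natDegree_C_mul_le _ _).trans (by omega)) ?_
    have : (C t : K[X]) * C t⁻¹ = 1 := by rw [← C_mul, mul_inv_cancel₀ ht, C_1]
    linear_combination -d * ψ₂ * this
  · exact hd0 (hR d ((natDegree_lt_iff_degree_lt hd0).1 (by omega))
      ((hA (by omega)).mono (by omega)))

lemma Rk_of_HN {c : ℕ → K} {a b μ₁ μ₂ : ℕ} {q : K[X]} (ha : 1 ≤ a) (hab : a < b)
    (hμ : μ₁ + μ₂ ≤ a) (hq0 : q ≠ 0) (hq : q.natDegree ≤ a - μ₁ - μ₂)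
    (af : Ann c (b - 1) (X ^ μ₁ * q)) (H₁ : HN c (b - a + 2 * μ₁) (a - μ₁))
    (H₂ : HN c 0 (a - μ₂)) : Rk c a b := by
  intro h hd hh
  by_contra h0
  have hf0 : X ^ μ₁ * q ≠ 0 := mul_ne_zero (pow_ne_zero _ X_ne_zero) hq0
  have hfd : (X ^ μ₁ * q).natDegree ≤ a - μ₂ := by rw [natDegree_X_pow_mul _ hq0]; omega
  have hhd := (natDegree_lt_iff_degree_lt h0).2 hd
  obtain ⟨e, s₁, s₂, d, ψ₁, ψ₂, e1, e2, hd, hf, rfl, h1, h2, -, hA⟩ :=
    gcd_ann (r₁ := a) (r₂ := a - 1) hf0 h0 (by omega) (by omega) af hh (by omega)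
  have hA' := hA (by omega)
  have hd0 : d ≠ 0 := left_ne_zero_of_mul h0
  have hψ : ψ₁ ≠ 0 := by rintro rfl; simp [hq0] at hf
  have h3 : a - μ₂ ≤ d.natDegree := by
    by_contra hlt
    exact hd0 (H₂ d ((natDegree_lt_iff_degree_lt hd0).1 (by omega))
      (by simpa using hA'.mono (by omega)))
  have h4 : ψ₁.natDegree = 0 := by
    rw [hf, natDegree_mul hd0 hψ] at hfd; omega
  obtain ⟨t, rfl⟩ : ∃ t, ψ₁ = C t := ⟨_, eq_C_of_natDegree_eq_zero h4⟩
  have ht : t ≠ 0 := by simpa using hψ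
  have hs : 1 ≤ s₁ := by omega
  have h5 : q.natDegree + μ₁ = d.natDegree := by
    rw [← natDegree_X_pow_mul _ hq0, hf, natDegree_mul hd0 hψ]; simp
  refine hq0 (H₁ q ((natDegree_lt_iff_degree_lt hq0).1 (by omega)) ?_)
  have := (hA'.mul (ψ := C t * X ^ (b - a + μ₁)) (r := b - a + μ₁) (n' := a - μ₁)
    ((natDegree_C_mul_le _ _).trans (by simp)) (by omega))
  rwa [← mul_assoc, ← hf, show X ^ μ₁ * q * X ^ (b - a + μ₁) = X ^ (b - a + 2 * μ₁) * q by ring]
    at this

lemma Lc_reflect (c : ℕ → K) {j : ℕ} {p : K[X]} (hp : p.natDegree ≤ j) :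
    Lc (fun i => c (j - i)) (reflect j p) = Lc c p := by
  refine induction_with_natDegree_le (fun p => Lc (fun i => c (j - i)) (reflect j p) = Lc c p)
    j (by simp) ?_ ?_ p hp
  · intro n r _ hn
    rw [reflect_C_mul_X_pow, Lc_C_mul, Lc_C_mul, Lc_X_pow, Lc_X_pow, revAt_le hn,
      Nat.sub_sub_self hn]
  · intro f g _ _ h1 h2
    rw [reflect_add, map_add, map_add, h1, h2]

lemma Lc_congr {c c' : ℕ → K} {j : ℕ} {p : K[X]} (hp : p.natDegree ≤ j)
    (h : ∀ i ≤ j, c i = c' i) : Lc c p = Lc c' p := by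
  refine induction_with_natDegree_le (fun p => Lc c p = Lc c' p) j (by simp) ?_ ?_ p hp
  · intro n r _ hn
    rw [Lc_C_mul, Lc_C_mul, Lc_X_pow, Lc_X_pow, h n hn]
  · intro f g _ _ h1 h2
    rw [map_add, map_add, h1, h2]

lemma Ann.reflect {c : ℕ → K} {j r n : ℕ} {φ : K[X]} (hφ : φ.natDegree ≤ r) (hn : r + n = j + 1)
    (h : Ann c n φ) : Ann (fun i => c (j - i)) n (reflect r φ) := by
  rw [ann_iff] at h ⊢
  intro i hi
  have h1 : (X ^ (n - 1 - i) : K[X]).natDegree ≤ n - 1 := by simp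
  have h2 := reflect_mul φ (X ^ (n - 1 - i)) hφ h1
  rw [reflect_monomial, revAt_le (by omega), show n - 1 - (n - 1 - i) = i by omega,
    show r + (n - 1) = j by omega] at h2
  rw [← h2, Lc_reflect c (natDegree_mul_le.trans (by omega))]
  exact h _ (by omega)

lemma natDegree_reflect_le' {p : K[X]} {n : ℕ} (hp : p.natDegree ≤ n) :
    (reflect n p).natDegree ≤ n := natDegree_reflect_le.trans (by omega)

lemma Rk.reflect {c : ℕ → K} {a b j : ℕ} (ha : 1 ≤ a) (hj : a + b = j + 2) (h : Rk c a b) :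
    Rk (fun i => c (j - i)) a b := by
  intro p hp hA
  by_contra h0
  have hd : p.natDegree ≤ a - 1 := by
    have := (natDegree_lt_iff_degree_lt h0).2 hp; omega
  have h1 := hA.reflect hd (j := j) (by omega)
  have h2 : Polynomial.reflect (a - 1) p ≠ 0 := by simpa using h0
  have h3 := natDegree_reflect_le' hd
  refine h2 (h _ ((natDegree_lt_iff_degree_lt h2).1 (by omega)) fun w hw => ?_)
  have h4 := h1 w hw
  by_cases hw0 : w = 0
  · simp [hw0]
  have h5 := (natDegree_lt_iff_degree_lt hw0).2 hw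
  have h6 : (Polynomial.reflect (a - 1) p * w).natDegree ≤ j := natDegree_mul_le.trans (by omega)
  rw [← h4]
  exact Lc_congr h6 fun i hi => by rw [Nat.sub_sub_self hi]

lemma det_rev {A : Type*} [CommRing A] (c : ℕ → A) {j m k : ℕ} (h : k = 0 ∨ m + 2 * k = j + 2) :
    (HM (fun i => c (j - i)) m k k).det = (HM c 0 k k).det := by
  rcases h with rfl | h
  · simp
  rw [← Matrix.det_submatrix_equiv_self Fin.revPerm]
  congr 1
  ext u v
  simp only [HM, Matrix.submatrix_apply, Matrix.of_apply, Fin.revPerm_apply, Fin.val_rev]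
  congr 1
  have := u.2
  have := v.2
  omega

/-- from a moment sequence of the right rank to a pair of forms -/
theorem pair_of_moments {c : ℕ → K} {a b j : ℕ} {f : K[X]} (ha : 1 ≤ a) (hab : a ≤ b)
    (hj : a + b = j + 2) (hf0 : f ≠ 0) (hf : f.natDegree ≤ a) (af : Ann c (b - 1) f)
    (hR : Rk c a b) : ∃ g : K[X], g.natDegree ≤ b ∧ Z b a f g ∧ Z b a (reflect a f) (reflect b g) ∧
      (∀ s ≤ a, Z (b - a + s) s f g ↔ (HM c (b - a + 2 * s) (a - s) (a - s)).det ≠ 0) ∧
      (∀ s ≤ a, Z (b - a + s) s (reflect a f) (reflect b g) ↔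
        (HM c 0 (a - s) (a - s)).det ≠ 0) := by
  obtain ⟨g, hg, ag, hfg⟩ := exists_second c ha hab f
  have hZ := Z_of_Rk ha hab hf0 hf hg af ag hR hfg
  have af' := af.reflect hf (j := j) (by omega)
  have ag' := ag.reflect hg (j := j) (by omega)
  have hR' := hR.reflect ha hj
  have hZ' : Z b a (reflect a f) (reflect b g) := by
    refine Z_of_Rk ha hab (by simpa using hf0) (natDegree_reflect_le' hf)
      (natDegree_reflect_le' hg) af' ag' hR' fun w hw h => hfg (reflect (b - a) w)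
      (natDegree_reflect_le' hw) ?_
    have := reflect_mul _ _ (natDegree_reflect_le' hf) hw
    rw [← h, show a + (b - a) = b by omega, reflect_reflect, reflect_reflect] at this
    exact this
  refine ⟨g, hg, hZ, hZ', fun s hs => ?_, fun s hs => ?_⟩
  · rw [det_ne_zero_iff, duality ha hab hs hf hg af ag hZ hR]
  · rw [duality ha hab hs (natDegree_reflect_le' hf) (natDegree_reflect_le' hg) af' ag' hZ' hR',
      ← det_ne_zero_iff, det_rev c (by omega)]

end Pool.Agent.Work.MP_3e4917_al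
end

-- merged part: Pool.Agent.Work.MP_3e4917_al.Hsop
section
namespace Pool.Agent.Work.MP_3e4917_al

open MvPolynomial

variable {K : Type*} [Field K] {σ ι τ : Type}

lemma eval_smul_of_isHomogeneous {p : MvPolynomial σ K} {n : ℕ} (hp : p.IsHomogeneous n)
    (t : K) (c : σ → K) : eval (t • c) p = t ^ n * eval c p := by
  rw [eval_eq, eval_eq, Finset.mul_sum]
  refine Finset.sum_congr rfl fun d hd => ?_
  rw [hp.degree_eq_sum_deg_support hd]
  simp only [Pi.smul_apply, smul_eq_mul, mul_pow, Finset.prod_mul_distrib,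
    Finset.prod_pow_eq_pow_sum]
  ring

lemma component_vanish [Infinite K] {c : σ → K} {p : MvPolynomial σ K}
    (h : ∀ t : K, eval (t • c) p = 0) (n : ℕ) : eval c (homogeneousComponent n p) = 0 := by
  by_cases hn : p.totalDegree < n
  · rw [homogeneousComponent_eq_zero _ _ hn, map_zero]
  set q : Polynomial K := ∑ i ∈ Finset.range (p.totalDegree + 1),
    Polynomial.monomial i (eval c (homogeneousComponent i p)) with hq
  have hq0 : q = 0 := by
    apply Polynomial.funext
    intro t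
    have := h t
    rw [← sum_homogeneousComponent p, map_sum] at this
    rw [hq, Polynomial.eval_finsetSum, Polynomial.eval_zero, ← this]
    refine Finset.sum_congr rfl fun i _ => ?_
    rw [eval_smul_of_isHomogeneous (homogeneousComponent_isHomogeneous i p),
      Polynomial.eval_monomial, mul_comm]
  have := congrArg (fun r => Polynomial.coeff r n) hq0
  simp only [hq, Polynomial.finsetSum_coeff, Polynomial.coeff_monomial, Finset.sum_ite_eq',
    Finset.mem_range, Polynomial.coeff_zero] at this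
  rwa [if_pos (by omega)] at this

lemma component_mul {y : MvPolynomial σ K} {d : ℕ} (hy : y.IsHomogeneous d)
    (h : MvPolynomial σ K) (n : ℕ) : homogeneousComponent n (h * y) =
      if d ≤ n then homogeneousComponent (n - d) h * y else 0 := by
  induction h using MvPolynomial.induction_on' with
  | add p q hp hq =>
    rw [add_mul, map_add, hp, hq, map_add]
    split_ifs <;> simp [add_mul]
  | monomial m r =>
    have hm : (monomial m r : MvPolynomial σ K).IsHomogeneous m.degree :=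
      isHomogeneous_monomial r rfl
    rw [homogeneousComponent_of_mem (hm.mul hy), homogeneousComponent_of_mem hm]
    split_ifs <;> first | omega | simp

theorem surj_of_hsop [IsAlgClosed K] [Fintype σ] [Fintype ι] [Fintype τ] (W : Set (σ → K))
    (hclosed : ∀ c, (∀ p : MvPolynomial σ K, (∀ w ∈ W, eval w p = 0) → eval c p = 0) → c ∈ W)
    (hcone : ∀ c ∈ W, ∀ t : K, t • c ∈ W)
    (y : ι → MvPolynomial σ K) (d : ι → ℕ) (hd : ∀ i, 0 < d i)
    (hy : ∀ i, (y i).IsHomogeneous (d i))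
    (hfin : ∀ c ∈ W, (∀ i, eval c (y i) = 0) → c = 0)
    (hcard : Fintype.card ι ≤ Fintype.card τ)
    (ρ : τ → σ) (D : MvPolynomial τ K) (hD : D ≠ 0)
    (hdom : ∀ t, eval t D ≠ 0 → ∃ c ∈ W, ∀ i, c (ρ i) = t i)
    (t : ι → K) : ∃ c ∈ W, ∀ i, eval c (y i) = t i := by
  classical
  set I : Ideal (MvPolynomial σ K) := vanishingIdeal K W with hI
  have hmemI : ∀ p, p ∈ I ↔ ∀ w ∈ W, eval w p = 0 := fun p => by
    simp [hI, mem_vanishingIdeal_iff, aeval_eq_eval]
  have hcomp : ∀ p ∈ I, ∀ n, homogeneousComponent n p ∈ I := by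
    intro p hp n
    rw [hmemI] at hp ⊢
    intro w hw
    exact component_vanish (fun t => hp _ (hcone w hw t)) n
  set J : Ideal (MvPolynomial σ K) := I ⊔ Ideal.span (Set.range y) with hJ
  obtain ⟨M, hM⟩ : ∃ M, idealOfVars σ K ^ M ≤ J := by
    refine Ideal.exists_pow_le_of_le_radical_of_fg ?_ (idealOfVars_fg σ K)
    rw [← vanishingIdeal_zeroLocus_eq_radical (K := K), Ideal.span_le]
    rintro _ ⟨s, rfl⟩ c hc
    have hcW : c ∈ W := hclosed c fun p hp => by
      simpa [aeval_eq_eval] using hc p (Ideal.mem_sup_left ((hmemI p).2 hp))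
    have : c = 0 := hfin c hcW fun i => by
      simpa [aeval_eq_eval] using hc (y i) (Ideal.mem_sup_right (Ideal.subset_span ⟨i, rfl⟩))
    simp [this]
  obtain ⟨q, hq, hIq, hdisj⟩ := Ideal.exists_le_prime_disjoint I
    ((nonZeroDivisors (MvPolynomial τ K)).map (rename (R := K) ρ)) (by
      rw [Set.disjoint_left]
      rintro _ hG ⟨G, hG0, rfl⟩
      have hG0' : G ≠ 0 := nonZeroDivisors.ne_zero hG0
      refine mul_ne_zero hG0' hD (MvPolynomial.funext fun t => ?_)
      by_cases ht : eval t D = 0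
      · simp [ht]
      obtain ⟨c, hc, hct⟩ := hdom t ht
      have := (hmemI _).1 hG c hc
      rw [eval_rename, show c ∘ ρ = t from _root_.funext hct] at this
      simp [this])
  let π : MvPolynomial σ K →ₐ[K] (MvPolynomial σ K ⧸ q) := Ideal.Quotient.mkₐ K q
  have hz : AlgebraicIndependent K (fun j => π (X (ρ j))) := by
    rw [algebraicIndependent_iff]
    intro G hG
    by_contra hG0
    have h1 : aeval (fun j => π (X (ρ j))) G = π (rename ρ G) := by
      have : aeval (fun j => π (X (ρ j))) = π.comp (rename ρ) := by ext; simp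
      rw [this]; rfl
    rw [h1] at hG
    exact Set.disjoint_left.1 hdisj (Ideal.Quotient.eq_zero_iff_mem.1 hG)
      ⟨G, mem_nonZeroDivisors_of_ne_zero hG0, rfl⟩
  let yb : ι → MvPolynomial σ K ⧸ q := fun i => π (y i)
  let A := Algebra.adjoin K (Set.range yb)
  let T : Set (MvPolynomial σ K ⧸ q) :=
    (fun m : σ →₀ ℕ => π (monomial m 1)) '' {m | m.degree ≤ M}
  have hT : T.Finite := (Finsupp.finite_of_degree_le M).image _
  have hsm : ∀ (a : A) (b : MvPolynomial σ K ⧸ q), a • b = a.1 * b := fun _ _ => rfl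
  have hspan : ∀ n, ∀ p : MvPolynomial σ K, p.IsHomogeneous n → π p ∈ Submodule.span A T := by
    intro n
    induction n using Nat.strong_induction_on with
    | _ n ih =>
      intro p hp
      by_cases hn : n ≤ M
      · rw [p.as_sum, map_sum]
        refine Submodule.sum_mem _ fun m hm => ?_
        have h1 : m.degree = n := by
          by_contra h; exact mem_support_iff.1 hm (hp.coeff_eq_zero h)
        have h2 : π (monomial m (coeff m p)) =
            (algebraMap K A (coeff m p)) • π (monomial m 1) := by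
          rw [algebraMap_smul, ← map_smul, smul_monomial]; simp
        rw [h2]
        exact Submodule.smul_mem _ _ (Submodule.subset_span ⟨m, by simp [h1, hn], rfl⟩)
      · have hpJ : p ∈ J := hM ((mem_pow_idealOfVars_iff' M p).2 fun x hx =>
          hp.coeff_eq_zero (by omega))
        obtain ⟨r, hr, z, hz, hrz⟩ := Submodule.mem_sup.1 hpJ
        obtain ⟨h, rfl⟩ := Ideal.mem_span_range_iff_exists_fun.1 hz
        have h1 := congrArg (homogeneousComponent n) hrz
        rw [homogeneousComponent_eq_self hp, map_add, map_sum] at h1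
        rw [← h1, map_add, map_sum,
          show π (homogeneousComponent n r) = 0 from
            Ideal.Quotient.eq_zero_iff_mem.2 (hIq (hcomp r hr n)), zero_add]
        refine Submodule.sum_mem _ fun i _ => ?_
        rw [component_mul (hy i)]
        split_ifs with hle
        · rw [map_mul, mul_comm, ← hsm ⟨yb i, Algebra.subset_adjoin ⟨i, rfl⟩⟩]
          have := hd i
          exact Submodule.smul_mem _ _ (ih _ (by omega) _ (homogeneousComponent_isHomogeneous _ _))
        · simp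
  have hfinA : Module.Finite A (MvPolynomial σ K ⧸ q) := by
    refine ⟨Submodule.fg_def.2 ⟨T, hT, eq_top_iff.2 fun b _ => ?_⟩⟩
    obtain ⟨p, rfl⟩ := Ideal.Quotient.mk_surjective b
    change π p ∈ _
    rw [← sum_homogeneousComponent p, map_sum]
    exact Submodule.sum_mem _ fun n _ => hspan n _ (homogeneousComponent_isHomogeneous _ _)
  have halg : Algebra.IsAlgebraic A (MvPolynomial σ K ⧸ q) := Algebra.IsAlgebraic.of_finite _ _
  have htb : IsTranscendenceBasis K yb := by
    refine Algebra.IsAlgebraic.isTranscendenceBasis_of_lift_le_trdeg_of_finite K yb ?_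
    refine le_trans ?_ hz.lift_cardinalMk_le_trdeg
    simpa using hcard
  let ψ : A →ₐ[K] K := (aeval t).comp htb.1.aevalEquiv.symm.toAlgHom
  have hψ : Function.Surjective ψ := fun z => ⟨algebraMap K A z, by simp⟩
  have hmax : (RingHom.ker ψ).IsMaximal := RingHom.ker_isMaximal_of_surjective ψ hψ
  obtain ⟨Q, hQ, hQc⟩ := Ideal.exists_ideal_over_maximal_of_isIntegral
    (S := MvPolynomial σ K ⧸ q) (RingHom.ker ψ) (by
      rw [(RingHom.injective_iff_ker_eq_bot _).1 Subtype.val_injective]; exact bot_le)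
  have hQ' : (Q.comap π).IsMaximal :=
    Ideal.comap_isMaximal_of_surjective π Ideal.Quotient.mk_surjective
  obtain ⟨c, hc⟩ := isMaximal_iff_eq_vanishingIdeal_singleton.1 hQ'
  have hev : ∀ p, π p ∈ Q → eval c p = 0 := by
    intro p hp
    have : p ∈ Q.comap π := hp
    rw [hc, mem_vanishingIdeal_singleton_iff] at this
    simpa [aeval_eq_eval] using this
  refine ⟨c, hclosed c fun p hp => hev p ?_, fun i => ?_⟩
  · rw [show π p = 0 from Ideal.Quotient.eq_zero_iff_mem.2 (hIq ((hmemI p).2 hp))]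
    exact Q.zero_mem
  · have h1 : htb.1.aevalEquiv (X i - C (t i)) ∈ RingHom.ker ψ := by
      simp [ψ, RingHom.mem_ker]
    rw [← hQc, Ideal.mem_comap] at h1
    have h2 : algebraMap A (MvPolynomial σ K ⧸ q) (htb.1.aevalEquiv (X i - C (t i))) =
        π (y i - C (t i)) := by
      rw [htb.1.algebraMap_aevalEquiv]; simp [yb]
    rw [h2] at h1
    have := hev _ h1
    simpa [sub_eq_zero] using this

end Pool.Agent.Work.MP_3e4917_al
end

-- merged part: Pool.Agent.Work.MP_3e4917_al.Moments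
section
namespace Pool.Agent.Work.MP_3e4917_al

open MvPolynomial

variable {K : Type*} [Field K]

/-- extension by zero -/
def ex {A : Type*} [Zero A] {n : ℕ} (c : Fin n → A) (i : ℕ) : A :=
  if h : i < n then c ⟨i, h⟩ else 0

lemma ex_of_lt {A : Type*} [Zero A] {n : ℕ} (c : ℕ → A) {i : ℕ} (h : i < n) :
    ex (fun k : Fin n => c k) i = c i := by simp [ex, h]

lemma ex_val {A : Type*} [Zero A] {n : ℕ} (c : Fin n → A) (i : Fin n) : ex c i = c i := by
  unfold ex; rw [dif_pos i.2]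

lemma eval_ex {σ : Type*} {n : ℕ} (e : Fin n → σ) (c : σ → K) (i : ℕ) :
    eval c (ex (fun k => (X (e k) : MvPolynomial σ K)) i) = ex (fun k => c (e k)) i := by
  unfold ex; split_ifs <;> simp

lemma map_HM {σ : Type*} {n : ℕ} (e : Fin n → σ) (c : σ → K) (m k l : ℕ) :
    (HM (ex (fun k => (X (e k) : MvPolynomial σ K))) m k l).map (eval c) =
      HM (ex (fun k => c (e k))) m k l := by
  ext u v; simp [HM, eval_ex]

lemma eval_det {σ : Type*} {n : ℕ} (e : Fin n → σ) (c : σ → K) (m k : ℕ) :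
    eval c (HM (ex (fun k => (X (e k) : MvPolynomial σ K))) m k k).det =
      (HM (ex (fun k => c (e k))) m k k).det := by
  rw [RingHom.map_det, RingHom.mapMatrix_apply, map_HM]

lemma det_homog {n : ℕ} (m k : ℕ) :
    (HM (ex (fun i : Fin n => (X i : MvPolynomial (Fin n) K))) m k k).det.IsHomogeneous k := by
  rw [Matrix.det_apply']
  refine IsHomogeneous.sum _ _ _ fun π _ => ?_
  have h1 : (∏ i, HM (ex (fun i : Fin n => (X i : MvPolynomial (Fin n) K))) m k k (π i) i
      ).IsHomogeneous (∑ _i : Fin k, 1) := by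
    refine IsHomogeneous.prod _ _ _ fun i _ => ?_
    simp only [HM, Matrix.of_apply, ex]
    split_ifs
    · exact isHomogeneous_X _ _
    · exact isHomogeneous_zero _ _ _
  have h2 : ((Equiv.Perm.sign π : ℤ) : MvPolynomial (Fin n) K) = C ((Equiv.Perm.sign π : ℤ) : K) :=
    (map_intCast (C : K →+* MvPolynomial (Fin n) K) _).symm
  rw [h2]
  simp only [Finset.sum_const, Finset.card_univ, Fintype.card_fin, smul_eq_mul, mul_one] at h1
  exact h1.C_mul _

lemma det_rev' {A : Type*} [CommRing A] (c : ℕ → A) {j m k : ℕ} (h : m + 2 * k = j + 2) :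
    (HM c m k k).det = (HM (fun i => c (j - i)) 0 k k).det := by
  rw [← Matrix.det_submatrix_equiv_self Fin.revPerm]
  congr 1
  ext u v
  simp only [HM, Matrix.submatrix_apply, Matrix.of_apply, Fin.revPerm_apply, Fin.val_rev]
  congr 1
  have := u.2
  have := v.2
  omega

lemma low_zero {c : ℕ → K} {n : ℕ} (h : ∀ k < n, (HM c 0 (k + 1) (k + 1)).det = 0) :
    ∀ i < n, c i = 0 :=
  first_zero fun k hk H => (det_ne_zero_iff c 0 (k + 1)).2 H (h k hk)

lemma high_zero {c : ℕ → K} {n j : ℕ} (hn : 2 * n ≤ j + 2)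
    (h : ∀ k < n, (HM c (j - 2 * k) (k + 1) (k + 1)).det = 0) : ∀ i < n, c (j - i) = 0 :=
  low_zero (c := fun i => c (j - i)) fun k hk => by
    rw [← det_rev' c (m := j - 2 * k) (by omega), h k hk]

theorem moments_eq [IsAlgClosed K] (a : ℕ) (t₁ t₂ : ℕ → K) :
    ∃ c : ℕ → K, (∀ k < a, (HM c (2 * a - 2 * k) (k + 1) (k + 1)).det = t₁ k) ∧
      ∀ k < a + 1, (HM c 0 (k + 1) (k + 1)).det = t₂ k := by
  obtain ⟨c, -, hc⟩ := surj_of_hsop (K := K) (σ := Fin (2 * a + 1)) (ι := Fin a ⊕ Fin (a + 1))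
    (τ := Fin (2 * a + 1)) Set.univ (fun _ _ => trivial) (fun _ _ _ => trivial)
    (Sum.elim (fun k => (HM (ex fun i => X i) (2 * a - 2 * k) (k + 1) (k + 1)).det)
      (fun k => (HM (ex fun i => X i) 0 (k + 1) (k + 1)).det))
    (Sum.elim (fun k => k + 1) (fun k => k + 1)) (by rintro (k | k) <;> simp)
    (by rintro (k | k) <;> exact det_homog _ _)
    (by
      intro c _ h
      have h1 := low_zero (c := ex c) (n := a + 1) fun k hk => by
        simpa [eval_det (fun i => i)] using h (Sum.inr ⟨k, hk⟩)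
      have h2 := high_zero (c := ex c) (n := a) (j := 2 * a) (by omega) fun k hk => by
        simpa [eval_det (fun i => i)] using h (Sum.inl ⟨k, hk⟩)
      ext i
      have h3 : ex c i = c i := ex_val c i
      have := i.2
      rw [← h3]
      by_cases hi : i.1 < a + 1
      · exact h1 i hi
      · have := h2 (2 * a - i) (by omega)
        rwa [Nat.sub_sub_self (by omega)] at this)
    (by simp; omega) id 1 one_ne_zero (fun t _ => ⟨t, trivial, fun _ => rfl⟩)
    (Sum.elim (fun k => t₁ k) (fun k => t₂ k))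
  refine ⟨ex c, fun k hk => ?_, fun k hk => ?_⟩
  · simpa [eval_det (fun i => i)] using hc (Sum.inl ⟨k, hk⟩)
  · simpa [eval_det (fun i => i)] using hc (Sum.inr ⟨k, hk⟩)

lemma closed_ker {n m k l : ℕ} (c : Fin n → K)
    (h : ∀ p : MvPolynomial (Fin n) K,
      (∀ w : Fin n → K, (∃ v ≠ 0, (HM (ex w) m k l).mulVec v = 0) → eval w p = 0) →
        eval c p = 0) : ∃ v ≠ 0, (HM (ex c) m k l).mulVec v = 0 := by
  by_contra hcon
  have hinj : LinearMap.ker (Matrix.toLin' (HM (ex c) m k l)) = ⊥ := by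
    rw [LinearMap.ker_eq_bot']
    intro v hv
    by_contra h0
    exact hcon ⟨v, h0, hv⟩
  obtain ⟨g, hg⟩ := LinearMap.exists_leftInverse_of_injective _ hinj
  have hN : LinearMap.toMatrix' g * HM (ex c) m k l = 1 := by
    have := congrArg LinearMap.toMatrix' hg
    rwa [LinearMap.toMatrix'_comp, LinearMap.toMatrix'_toLin', LinearMap.toMatrix'_id] at this
  let A : Matrix (Fin l) (Fin k) (MvPolynomial (Fin n) K) := (LinearMap.toMatrix' g).map C
  let B : Matrix (Fin k) (Fin l) (MvPolynomial (Fin n) K) := HM (ex fun i => X i) m k l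
  have hev : ∀ w : Fin n → K, eval w (A * B).det =
      (LinearMap.toMatrix' g * HM (ex w) m k l).det := by
    intro w
    rw [RingHom.map_det, RingHom.mapMatrix_apply, Matrix.map_mul, map_HM (fun i => i),
      Matrix.map_map]
    congr 2
    ext u v; simp
  have := h _ (fun w ⟨v, hv, hw⟩ => by
    rw [hev, ← Matrix.exists_mulVec_eq_zero_iff]
    exact ⟨v, hv, by rw [← Matrix.mulVec_mulVec, hw, Matrix.mulVec_zero]⟩)
  rw [hev, hN] at this
  simp at this

lemma extend_rec {e : ℕ → K} {m d : ℕ} (h : (HM e m d d).det ≠ 0) :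
    ∃ (u : ℕ → K) (v : Fin (d + 1) → K), v ≠ 0 ∧ (∀ i < 2 * d, u i = e (m + i)) ∧
      ∀ i, ∑ k : Fin (d + 1), u (i + k) * v k = 0 := by
  have hu : IsUnit (HM e m d d) := (Matrix.isUnit_iff_isUnit_det _).2 (IsUnit.mk0 _ h)
  obtain ⟨v', hv'⟩ := (Matrix.mulVec_surjective_iff_isUnit.2 hu) (fun i => e (m + i + d))
  let E : LinearRecurrence K := ⟨d, v'⟩
  have hsol := E.is_sol_mkSol (fun i => e (m + i))
  have hini := E.mkSol_eq_init (fun i => e (m + i))
  refine ⟨E.mkSol (fun i => e (m + i)), Fin.snoc (α := fun _ => K) (-v') 1, ?_, ?_, ?_⟩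
  · intro h0
    have := congrFun h0 (Fin.last d)
    simp at this
  · intro i
    induction i using Nat.strong_induction_on with
    | _ i ih =>
      intro hi
      by_cases hid : i < d
      · exact hini ⟨i, hid⟩
      · obtain ⟨n, rfl⟩ := Nat.exists_eq_add_of_le' (not_lt.1 hid)
        have h1 := hsol n
        have h2 := congrFun hv' ⟨n, by omega⟩
        simp only [Matrix.mulVec, dotProduct, HM, Matrix.of_apply] at h2
        change E.mkSol _ (n + d) = ∑ i : Fin d, v' i * E.mkSol _ (n + i) at h1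
        rw [h1, ← add_assoc, ← h2]
        refine Finset.sum_congr rfl fun k _ => ?_
        have := k.2
        rw [ih (n + k) (by omega) (by omega), mul_comm, add_assoc]
  · intro i
    have h1 := hsol i
    change E.mkSol _ (i + d) = ∑ k : Fin d, v' k * E.mkSol _ (i + k) at h1
    rw [Fin.sum_univ_castSucc]
    simp only [Fin.snoc_castSucc, Fin.snoc_last, Fin.val_castSucc, Fin.val_last, Pi.neg_apply,
      mul_one, h1, mul_neg, Finset.sum_neg_distrib]
    rw [neg_add_eq_zero]
    exact Finset.sum_congr rfl fun k _ => mul_comm _ _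

theorem moments_lt [IsAlgClosed K] {a b j μ₁ μ₂ d : ℕ} (ha : 1 ≤ a) (hab : a < b)
    (hj : a + b = j + 2) (hd : μ₁ + μ₂ + d = a) (t₁ t₂ : ℕ → K) :
    ∃ c : ℕ → K, (∃ v ≠ 0, (HM c μ₁ (b - 1) (d + 1)).mulVec v = 0) ∧
      (∀ k < a - μ₁, (HM c (j - 2 * k) (k + 1) (k + 1)).det = t₁ k) ∧
      ∀ k < a - μ₂, (HM c 0 (k + 1) (k + 1)).det = t₂ k := by
  classical
  obtain ⟨c, hW, hc⟩ := surj_of_hsop (K := K) (σ := Fin (j + 1))
    (ι := Fin (a - μ₁) ⊕ Fin (a - μ₂)) (τ := Fin (μ₁ + 2 * d) ⊕ Fin μ₂)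
    {c | ∃ v ≠ 0, (HM (ex c) μ₁ (b - 1) (d + 1)).mulVec v = 0} (fun c h => closed_ker c h)
    (by
      rintro c ⟨v, hv, h⟩ t
      refine ⟨v, hv, ?_⟩
      have : HM (ex (t • c)) μ₁ (b - 1) (d + 1) = t • HM (ex c) μ₁ (b - 1) (d + 1) := by
        ext u w
        simp only [HM, Matrix.of_apply, Matrix.smul_apply, ex]
        split_ifs <;> simp
      rw [this, Matrix.smul_mulVec, h, smul_zero])
    (Sum.elim (fun k => (HM (ex fun i => X i) (j - 2 * k) (k + 1) (k + 1)).det)
      (fun k => (HM (ex fun i => X i) 0 (k + 1) (k + 1)).det))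
    (Sum.elim (fun k => k + 1) (fun k => k + 1)) (by rintro (k | k) <;> simp)
    (by rintro (k | k) <;> exact det_homog _ _)
    (by
      intro c hW h
      have h1 := low_zero (c := ex c) (n := a - μ₂) fun k hk => by
        simpa [eval_det (fun i => i)] using h (Sum.inr ⟨k, hk⟩)
      have h2 := high_zero (c := ex c) (n := a - μ₁) (j := j) (by omega) fun k hk => by
        simpa [eval_det (fun i => i)] using h (Sum.inl ⟨k, hk⟩)
      obtain ⟨q, hq0, hq, hA⟩ := (ker_iff _ _ _ _).1 hW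
      have hq' := (Polynomial.natDegree_lt_iff_degree_lt hq0).2 hq
      have h3 : ∀ i, i ≤ j → ex c i = 0 := by
        intro i
        induction i using Nat.strong_induction_on with
        | _ i ih =>
          intro hi
          by_contra h0
          have h4 : ¬ i < a - μ₂ := fun h => h0 (h1 i h)
          have h5 : ¬ j - i < a - μ₁ := fun h => h0 (by
            have := h2 _ h
            rwa [Nat.sub_sub_self hi] at this)
          refine not_ann_first (c := ex c) (m := 0) (k := i) (n := b - 1)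
            (h := Polynomial.X ^ μ₁ * q) (fun l hl => by simpa using ih l hl (by omega))
            (by simpa using h0) (mul_ne_zero (pow_ne_zero _ Polynomial.X_ne_zero) hq0) ?_ ?_
            (by simpa using hA)
          · rw [Polynomial.natDegree_X_pow_mul _ hq0]; omega
          · rw [Polynomial.natDegree_X_pow_mul _ hq0]; omega
      ext i
      have := h3 i (by have := i.2; omega)
      rwa [ex_val] at this)
    (by simp; omega)
    (Sum.elim (fun i => ⟨i, by have := i.2; omega⟩) (fun i => ⟨j - i, by omega⟩))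
    (HM (ex fun i => X (Sum.inl i)) μ₁ d d).det
    (by
      intro h0
      have := congrArg (eval (Sum.elim (fun i => if i.1 + 1 = μ₁ + d then (1 : K) else 0)
        (fun _ => 0))) h0
      rw [eval_det, map_zero] at this
      rcases d with _ | d
      · simp at this
      · refine (det_ne_zero_iff _ _ _).2 (HN_of_first ?_ ?_) this
        · intro i hi
          simp only [ex, Sum.elim_inl]
          rw [dif_pos (by omega), if_neg (by omega)]
        · simp only [ex, Sum.elim_inl]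
          rw [dif_pos (by omega), if_pos (by omega)]
          exact one_ne_zero)
    (by
      intro t ht
      rw [eval_det] at ht
      obtain ⟨u, v, hv, hu, huv⟩ := extend_rec ht
      let cc : ℕ → K := fun i => if h : j - i < μ₂ then t (Sum.inr ⟨j - i, h⟩) else
        if i < μ₁ then ex (fun k => t (Sum.inl k)) i else u (i - μ₁)
      refine ⟨fun i => cc i, ⟨v, hv, ?_⟩, ?_⟩
      · ext i
        rw [Pi.zero_apply, ← huv i]
        simp only [Matrix.mulVec, dotProduct, HM, Matrix.of_apply]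
        refine Finset.sum_congr rfl fun k _ => ?_
        have := i.2
        have := k.2
        rw [ex_of_lt cc (by omega)]
        simp only [cc]
        rw [dif_neg (by omega), if_neg (by omega)]
        congr 2; omega
      · rintro (i | i)
        · have := i.2
          simp only [Sum.elim_inl, cc]
          rw [dif_neg (by omega)]
          split_ifs with h
          · simp [ex]
          · rw [hu _ (by omega), show μ₁ + (i - μ₁) = i by omega]; simp [ex]
        · have := i.2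
          simp only [Sum.elim_inr, cc]
          rw [dif_pos (by omega)]
          congr 2
          ext; simp only; omega)
    (Sum.elim (fun k => t₁ k) (fun k => t₂ k))
  refine ⟨ex c, hW, fun k hk => ?_, fun k hk => ?_⟩
  · simpa [eval_det (fun i => i)] using hc (Sum.inl ⟨k, hk⟩)
  · simpa [eval_det (fun i => i)] using hc (Sum.inr ⟨k, hk⟩)

end Pool.Agent.Work.MP_3e4917_al
end

-- merged part: Pool.Agent.Work.MP_3e4917_al.Exist
section
namespace Pool.Agent.Work.MP_3e4917_al

open Polynomial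

variable {K : Type*} [Field K]

lemma det_pattern {c : ℕ → K} {a μ : ℕ} {S : Finset ℕ} (haS : a ∈ S) (m m' : ℕ → ℕ)
    (hm : ∀ s k, a - s = k + 1 → m' s = m k)
    (h : ∀ k < a - μ, (HM c (m k) (k + 1) (k + 1)).det = if a - (k + 1) ∈ S then 1 else 0) :
    ∀ s, μ ≤ s → s ≤ a → ((HM c (m' s) (a - s) (a - s)).det ≠ 0 ↔ s ∈ S) := by
  intro s h1 h2
  rcases h2.eq_or_lt with rfl | h2
  · rw [Nat.sub_self]; simp [haS]
  · obtain ⟨k, hk⟩ : ∃ k, a - s = k + 1 := ⟨a - s - 1, by omega⟩
    rw [hm s k hk, hk, h k (by omega), show a - (k + 1) = s by omega]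
    simp

lemma SZ_eq {a b μ : ℕ} {f g : K[X]} {S : Finset ℕ} (hab : a < b) (hS : ∀ s ∈ S, μ ≤ s ∧ s ≤ a)
    (hf : X ^ μ ∣ f) (h : ∀ s, μ ≤ s → s ≤ a → (Z (b - a + s) s f g ↔ s ∈ S)) :
    SZ a b f g = S := by
  ext s
  rw [mem_SZ]
  constructor
  · rintro ⟨h1, h2⟩
    by_cases hs : μ ≤ s
    · exact (h s hs h1).1 h2
    · exact absurd h2 (not_Z_of_dvd (by omega) ((pow_dvd_pow _ (by omega)).trans hf))
  · intro hs
    exact ⟨(hS s hs).2, (h s (hS s hs).1 (hS s hs).2).2 hs⟩

theorem exists_pair [IsAlgClosed K] {a b : ℕ} (ha : 1 ≤ a) (hab : a ≤ b) {S S' : Finset ℕ}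
    (haS : a ∈ S) (hS : ∀ s ∈ S, s ≤ a) (haS' : a ∈ S') (hS' : ∀ s ∈ S', s ≤ a)
    (hμ : least S + least S' ≤ a) :
    ∃ f g : K[X], f.natDegree ≤ a ∧ g.natDegree ≤ b ∧ Z b a f g ∧
      Z b a (reflect a f) (reflect b g) ∧ jt (b - a) (SZ a b f g) = jt (b - a) S ∧
      jt (b - a) (SZ a b (reflect a f) (reflect b g)) = jt (b - a) S' := by
  classical
  rcases hab.eq_or_lt with rfl | hlt
  · obtain ⟨a, rfl⟩ := Nat.exists_eq_add_of_le' ha
    obtain ⟨c, h1, h2⟩ := moments_eq (K := K) a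
      (fun k => if a + 1 - (k + 1) ∈ insert 0 S then 1 else 0)
      (fun k => if a + 1 - (k + 1) ∈ insert 0 S' then 1 else 0)
    have h3 : (HM c 0 (a + 1) (a + 1)).det = 1 := by simpa using h2 a (by omega)
    have hR : Rk c (a + 1) (a + 1) := fun h hd hA =>
      (det_ne_zero_iff c 0 (a + 1)).1 (by simp [h3]) h hd (by simpa using hA)
    obtain ⟨f, hf, af, hf0⟩ := exists_second c ha le_rfl 0
    have hf0' : f ≠ 0 := by simpa using hf0 0 (by simp)
    obtain ⟨g, hg, hZ, hZ', p1, p2⟩ := pair_of_moments (j := 2 * a) ha le_rfl (by ring) hf0' hf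
      af hR
    have q1 := det_pattern (c := c) (μ := 0) (Finset.mem_insert_of_mem haS (b := 0))
      (fun k => 2 * a - 2 * k) (fun s => a + 1 - (a + 1) + 2 * s) (fun s k h => by omega)
      (fun k hk => by
        rcases (Nat.lt_succ_iff.1 hk).eq_or_lt with rfl | hk
        · simp [h3]
        · exact h1 k hk)
    have q2 := det_pattern (c := c) (μ := 0) (Finset.mem_insert_of_mem haS' (b := 0))
      (fun _ => 0) (fun _ => 0) (fun _ _ _ => rfl) h2
    have e1 : SZ (a + 1) (a + 1) f g = insert 0 S := by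
      ext s
      rw [mem_SZ]
      refine ⟨fun h => (q1 s (by omega) h.1).1 ((p1 s h.1).1 h.2), fun h => ?_⟩
      have : s ≤ a + 1 := by
        rcases Finset.mem_insert.1 h with rfl | h
        · omega
        · exact hS s h
      exact ⟨this, (p1 s this).2 ((q1 s (by omega) this).2 h)⟩
    have e2 : SZ (a + 1) (a + 1) (reflect (a + 1) f) (reflect (a + 1) g) = insert 0 S' := by
      ext s
      rw [mem_SZ]
      refine ⟨fun h => (q2 s (by omega) h.1).1 ((p2 s h.1).1 h.2), fun h => ?_⟩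
      have : s ≤ a + 1 := by
        rcases Finset.mem_insert.1 h with rfl | h
        · omega
        · exact hS' s h
      exact ⟨this, (p2 s this).2 ((q2 s (by omega) this).2 h)⟩
    refine ⟨f, g, hf, hg, hZ, hZ', ?_, ?_⟩
    · rw [e1, Nat.sub_self, jt_zero_insert ⟨_, haS⟩]
    · rw [e2, Nat.sub_self, jt_zero_insert ⟨_, haS'⟩]
  · obtain ⟨c, hW, h1, h2⟩ := moments_lt (K := K) (j := a + b - 2) (μ₁ := least S)
      (μ₂ := least S') (d := a - least S - least S') ha hlt (by omega) (by omega)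
      (fun k => if a - (k + 1) ∈ S then 1 else 0) (fun k => if a - (k + 1) ∈ S' then 1 else 0)
    obtain ⟨q, hq0, hq, af⟩ := (ker_iff _ _ _ _).1 hW
    have hq' := (natDegree_lt_iff_degree_lt hq0).2 hq
    have q1 := det_pattern haS (fun k => a + b - 2 - 2 * k) (fun s => b - a + 2 * s)
      (fun s k h => by omega) h1
    have q2 := det_pattern haS' (fun _ => 0) (fun _ => 0) (fun _ _ _ => rfl) h2
    have hR : Rk c a b := Rk_of_HN ha hlt hμ hq0 (by omega) af
      ((det_ne_zero_iff _ _ _).1 ((q1 _ le_rfl (by omega)).2 (least_mem ⟨_, haS⟩)))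
      ((det_ne_zero_iff _ _ _).1 ((q2 _ le_rfl (by omega)).2 (least_mem ⟨_, haS'⟩)))
    have hf0 : X ^ least S * q ≠ 0 := mul_ne_zero (pow_ne_zero _ X_ne_zero) hq0
    have hfd : (X ^ least S * q).natDegree ≤ a - least S' := by
      rw [natDegree_X_pow_mul _ hq0]; omega
    obtain ⟨g, hg, hZ, hZ', p1, p2⟩ := pair_of_moments (j := a + b - 2) ha hab (by omega) hf0
      (by omega) af hR
    refine ⟨_, g, by omega, hg, hZ, hZ', ?_, ?_⟩
    · rw [SZ_eq hlt (fun s hs => ⟨least_le hs, hS s hs⟩) (dvd_mul_right _ _)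
        fun s h h' => (p1 s h').trans (q1 s h h')]
    · refine congrArg _ (SZ_eq hlt (fun s hs => ⟨least_le hs, hS' s hs⟩) ?_
        fun s h h' => (p2 s h').trans (q2 s h h'))
      have := reflect_mul (1 : K[X]) _ (F := least S') (by simp) hfd
      rw [one_mul, show least S' + (a - least S') = a by omega, reflect_one] at this
      rw [this]
      exact dvd_mul_right _ _

end Pool.Agent.Work.MP_3e4917_al
end

-- merged part: Pool.Agent.Work.MP_3e4917_al.Forms
section
namespace Pool.Agent.Work.MP_3e4917_al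

open MvPolynomial

variable {K : Type*} [Field K]

/-- unfolded form of being a regular sequence of length two -/
def Reg {R : Type*} [CommRing R] (F G : R) : Prop :=
  F ≠ 0 ∧ (∀ H, F ∣ G * H → F ∣ H) ∧ Ideal.span {F, G} ≠ ⊤

open Pointwise in
lemma isRegular_iff_reg {R : Type*} [CommRing R] [IsDomain R] (F G : R) :
    RingTheory.Sequence.IsRegular R [F, G] ↔ Reg F G := by
  have h1 : ∀ x : R, x ∈ F • (⊤ : Submodule R R) ↔ F ∣ x := by
    intro x
    rw [Submodule.mem_smul_pointwise_iff_exists]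
    simp only [Submodule.mem_top, smul_eq_mul, true_and]
    exact ⟨fun ⟨y, h⟩ => ⟨y, h.symm⟩, fun ⟨y, h⟩ => ⟨y, h.symm⟩⟩
  have h2 : Ideal.ofList [F, G] • (⊤ : Submodule R R) = Ideal.span {F, G} := by
    rw [smul_eq_mul, Ideal.mul_top, Ideal.ofList]
    congr 1; ext; simp
  have h3 : IsSMulRegular R F ↔ F ≠ 0 :=
    ⟨fun h h0 => by subst h0; exact not_subsingleton R ((IsSMulRegular.zero_iff_subsingleton).1 h),
      fun h => IsSMulRegular.of_ne_zero h⟩
  rw [RingTheory.Sequence.isRegular_iff, RingTheory.Sequence.isWeaklyRegular_cons_iff,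
    RingTheory.Sequence.isWeaklyRegular_singleton_iff, isSMulRegular_quotient_iff_mem_of_smul_mem,
    h2, h3, Reg, and_assoc]
  simp only [h1, smul_eq_mul, ne_comm (a := (⊤ : Ideal R))]

lemma Reg.map {R : Type*} [CommRing R] [Algebra K R] {F G : R} (h : Reg F G) (θ : R ≃ₐ[K] R) :
    Reg (θ F) (θ G) := by
  refine ⟨by simpa using h.1, fun H hH => ?_, fun ht => h.2.2 ?_⟩
  · obtain ⟨H, rfl⟩ := θ.surjective H
    rw [← map_mul, map_dvd_iff] at hH
    exact (map_dvd_iff θ).2 (h.2.1 H hH)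
  · rw [Ideal.eq_top_iff_one, Ideal.mem_span_pair] at ht ⊢
    obtain ⟨u, v, huv⟩ := ht
    exact ⟨θ.symm u, θ.symm v, θ.injective (by simpa using huv)⟩

lemma exists_dehomog {F : MvPolynomial (Fin 2) K} {n : ℕ} (hF : F.IsHomogeneous n) :
    ∃ f : Polynomial K, f.natDegree ≤ n ∧ f.homogenize n = F := by
  refine ⟨aeval ![Polynomial.X, 1] F, ?_, Polynomial.homogenize_eq_of_isHomogeneous hF rfl⟩
  have := aeval_natDegree_le (n := 1) F hF.totalDegree_le ![Polynomial.X, 1]
    (by intro i; fin_cases i <;> simp)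
  simpa using this

lemma le_of_homog_dvd {F G : MvPolynomial (Fin 2) K} {m n : ℕ} (hF : F.IsHomogeneous m)
    (hG : G.IsHomogeneous n) (h0 : G ≠ 0) (h : F ∣ G) : m ≤ n := by
  have hF0 : F ≠ 0 := by rintro rfl; exact h0 (zero_dvd_iff.1 h)
  have := totalDegree_le_of_dvd_of_isDomain h h0
  rwa [hF.totalDegree hF0, hG.totalDegree h0] at this

lemma natDegree_le_pred {u : Polynomial K} {n : ℕ} (h : u.degree < n) : u.natDegree ≤ n - 1 := by
  by_cases h0 : u = 0
  · simp [h0]
  have := (Polynomial.natDegree_lt_iff_degree_lt h0).2 h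
  omega

lemma Z_of_reg {f g : Polynomial K} {a b : ℕ} (ha : 1 ≤ a) (hb : 1 ≤ b) (hf : f.natDegree ≤ a)
    (hg : g.natDegree ≤ b) (h : Reg (f.homogenize a) (g.homogenize b)) : Z b a f g := by
  intro u v hu hv hd
  have h1 := eq_zero_of_Z_dvd hf hg hu hv hd
  have hu' := natDegree_le_pred hu
  have hv' := natDegree_le_pred hv
  have h2 := congrArg (fun p => Polynomial.homogenize p (b - 1 + a)) h1
  simp only [Polynomial.homogenize_add, Polynomial.homogenize_zero] at h2
  rw [Polynomial.homogenize_mul _ _ hu' hf, show b - 1 + a = a - 1 + b by omega,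
    Polynomial.homogenize_mul _ _ hv' hg] at h2
  have h3 := h.2.1 (v.homogenize (a - 1)) ⟨-u.homogenize (b - 1), by linear_combination h2⟩
  have h4 : v = 0 := by
    by_contra h0
    have := le_of_homog_dvd (Polynomial.isHomogeneous_homogenize _)
      (Polynomial.isHomogeneous_homogenize _)
      (fun h => h0 (Polynomial.eq_zero_of_homogenize_eq_zero hv' h)) h3
    omega
  have hf0 : f ≠ 0 := by rintro rfl; exact h.1 (by simp)
  subst h4
  simpa [hf0] using h1

lemma exists_theta {l : MvPolynomial (Fin 2) K} (hl : l.IsHomogeneous 1) (h0 : l ≠ 0) :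
    ∃ θ : MvPolynomial (Fin 2) K ≃ₐ[K] MvPolynomial (Fin 2) K, θ l = X 0 ∧
      ∀ F n, IsHomogeneous F n → IsHomogeneous (θ F) n := by
  obtain ⟨p, hp, rfl⟩ := exists_dehomog hl
  obtain ⟨α, β, rfl⟩ := Polynomial.exists_eq_X_add_C_of_natDegree_le_one hp
  have e : (Polynomial.C α * Polynomial.X + Polynomial.C β).homogenize 1 =
      C α * X 0 + C β * X 1 := by simp
  rw [e] at h0 ⊢
  by_cases hα : α = 0
  · have hβ : β ≠ 0 := by rintro rfl; simp [hα] at h0
    have h1 : (C β⁻¹ : MvPolynomial (Fin 2) K) * C β = 1 := by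
      rw [← C_mul, inv_mul_cancel₀ hβ, C_1]
    refine ⟨AlgEquiv.ofAlgHom (aeval ![X 1, C β⁻¹ * X 0]) (aeval ![C β * X 1, X 0]) ?_ ?_, ?_, ?_⟩
    · ext1 i; fin_cases i <;> simp
      linear_combination X 0 * h1
    · ext1 i; fin_cases i <;> simp
      linear_combination X 1 * h1
    · simp [hα]
      linear_combination X 0 * h1
    · intro F n hF
      have := hF.aeval (n := 1) ![(X 1 : MvPolynomial (Fin 2) K), C β⁻¹ * X 0] (by
        intro i; fin_cases i
        · exact isHomogeneous_X _ _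
        · exact isHomogeneous_C_mul_X _ _)
      simpa using this
  · have h1 : (C α⁻¹ : MvPolynomial (Fin 2) K) * C α = 1 := by
      rw [← C_mul, inv_mul_cancel₀ hα, C_1]
    refine ⟨AlgEquiv.ofAlgHom (aeval ![C α⁻¹ * (X 0 - C β * X 1), X 1])
      (aeval ![C α * X 0 + C β * X 1, X 1]) ?_ ?_, ?_, ?_⟩
    · ext1 i; fin_cases i <;> simp
      linear_combination (X 0 - C β * X 1) * h1
    · ext1 i; fin_cases i <;> simp
      linear_combination X 0 * h1
    · simp
      linear_combination (X 0 - C β * X 1) * h1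
    · intro F n hF
      have := hF.aeval (n := 1) ![C α⁻¹ * (X 0 - C β * X 1), (X 1 : MvPolynomial (Fin 2) K)] (by
        intro i; fin_cases i
        · exact ((isHomogeneous_X _ _).sub (isHomogeneous_C_mul_X _ _)).C_mul _
        · exact isHomogeneous_X _ _)
      simpa using this

theorem type_general {F G l : MvPolynomial (Fin 2) K} {a b : ℕ} (ha : 1 ≤ a) (hab : a ≤ b)
    (hF : F.IsHomogeneous a) (hG : G.IsHomogeneous b) (h : Reg F G) (hl : l.IsHomogeneous 1)
    (h0 : l ≠ 0) : Prime l ∧ ∃ S : Finset ℕ, a ∈ S ∧ S ⊆ Finset.range (a + 1) ∧ l ^ least S ∣ F ∧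
      (∃ M, l ^ M ∈ Ideal.span {F, G}) ∧
      (∀ m, lam K (Ideal.span {F, G, l ^ m}) = smin (jt (b - a) S) m) ∧
      (jt (b - a) S).sum = a * b := by
  obtain ⟨θ, hθ, hh⟩ := exists_theta hl h0
  obtain ⟨f, hf, ef⟩ := exists_dehomog (hh F a hF)
  obtain ⟨g, hg, eg⟩ := exists_dehomog (hh G b hG)
  have hZ := Z_of_reg ha (ha.trans hab) hf hg (by rw [ef, eg]; exact h.map θ)
  obtain ⟨⟨w, hw⟩, ⟨M, hM⟩, h3, -, h5⟩ := concl a b f g hab (ha.trans hab) hf hg hZ
  have hmem := top_mem_SZ hab hZ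
  refine ⟨(MulEquiv.prime_iff θ).1 (hθ ▸ X_prime), SZ a b f g, hmem,
    fun s hs => Finset.mem_range.2 (Nat.lt_succ_iff.2 (mem_SZ.1 hs).1),
    ?_, ⟨M, ?_⟩, fun m => ?_, h5⟩
  · rw [← map_dvd_iff θ, map_pow, hθ, ← ef]
    have h1 := least_le hmem
    have hw' : w.natDegree ≤ a - least (SZ a b f g) := by
      by_cases hw0 : w = 0
      · simp [hw0]
      have := hf
      rw [hw, Polynomial.natDegree_X_pow_mul _ hw0] at this
      omega
    have := homog_X_pow_mul (least (SZ a b f g)) _ hw'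
    rw [← hw, show least (SZ a b f g) + (a - least (SZ a b f g)) = a by omega] at this
    exact ⟨_, this⟩
  · rw [ef, eg, Ideal.mem_span_pair] at hM
    obtain ⟨u, v, huv⟩ := hM
    exact Ideal.mem_span_pair.2 ⟨θ.symm u, θ.symm v, θ.injective (by simpa [hθ] using huv)⟩
  · rw [← lam_equiv θ, map_pow, hθ, ← ef, ← eg, h3]

lemma lam_pair {F G l : MvPolynomial (Fin 2) K} {P : Multiset ℕ} {M : ℕ}
    (hM : l ^ M ∈ Ideal.span {F, G}) (h : ∀ m, lam K (Ideal.span {F, G, l ^ m}) = smin P m) :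
    lam K (Ideal.span {F, G}) = P.sum := by
  have h1 := h (M + P.sum)
  rw [smin_of_sum_le _ (by omega), ← span_pair_sup, sup_eq_left.2] at h1
  · exact h1
  · rw [Ideal.span_singleton_le_iff_mem, pow_add]
    exact Ideal.mul_mem_right _ _ hM

lemma lam_ci {F G : MvPolynomial (Fin 2) K} {a b : ℕ} (ha : 1 ≤ a) (hab : a ≤ b)
    (hF : F.IsHomogeneous a) (hG : G.IsHomogeneous b) (h : Reg F G) :
    lam K (Ideal.span {F, G}) = (a * b : ℕ) := by
  obtain ⟨-, S, -, -, -, ⟨M, hM⟩, h1, h2⟩ :=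
    type_general ha hab hF hG h (isHomogeneous_X K 0) (X_ne_zero 0)
  rw [lam_pair hM h1, h2]

lemma isJordanType_iff {F G l : MvPolynomial (Fin 2) K} {P Q : Multiset ℕ} {M : ℕ}
    (hM : l ^ M ∈ Ideal.span {F, G}) (h : ∀ m, lam K (Ideal.span {F, G, l ^ m}) = smin P m)
    (hQ : 0 ∉ Q) :
    IsJordanType (LinearMap.mulLeft K (Ideal.Quotient.mk (Ideal.span {F, G}) l)) Q ↔
      Q = P.filter (· ≠ 0) := by
  have hr : ∀ m, Module.rank K (_ ⧸ LinearMap.range
      (LinearMap.mulLeft K (Ideal.Quotient.mk (Ideal.span {F, G}) l) ^ m)) =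
      smin (P.filter (· ≠ 0)) m := fun m => by
    rw [rank_quot_range, span_pair_sup, h, smin_filter]
  refine ⟨fun hJ => hJ.eq_of_rank hQ (by simp) hr, ?_⟩
  rintro rfl
  have hfin : Module.Finite K (MvPolynomial (Fin 2) K ⧸ Ideal.span {F, G}) := by
    rw [← Module.rank_lt_aleph0_iff]
    change lam K _ < _
    rw [lam_pair hM h]
    exact Cardinal.natCast_lt_aleph0
  refine isJordanType_of_rank _ ⟨M, ?_⟩ _ hQ hr
  rw [LinearMap.pow_mulLeft, ← map_pow, Ideal.Quotient.eq_zero_iff_mem.2 hM]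
  simp

lemma isJordanType_zero_iff {F G : MvPolynomial (Fin 2) K} {a b : ℕ} (ha : 1 ≤ a) (hab : a ≤ b)
    (hF : F.IsHomogeneous a) (hG : G.IsHomogeneous b) (h : Reg F G) {Q : Multiset ℕ}
    (hQ : 0 ∉ Q) :
    IsJordanType (LinearMap.mulLeft K (Ideal.Quotient.mk (Ideal.span {F, G}) 0)) Q ↔
      Q = Multiset.replicate (a * b) 1 := by
  rw [isJordanType_iff (M := 1) (P := Multiset.replicate (a * b) 1) (by simp) _ hQ,
    Multiset.filter_eq_self.2]
  · intro x hx
    rw [Multiset.eq_of_mem_replicate hx]; simp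
  · intro m
    rw [smin_replicate]
    rcases m with _ | m
    · rw [Ideal.eq_top_of_isUnit_mem _ (x := 1) (Ideal.subset_span (by simp)) isUnit_one, lam]
      simp [rank_subsingleton']
    · rw [← span_pair_sup, zero_pow (by omega), Ideal.span_singleton_zero, sup_bot_eq,
        lam_ci ha hab hF hG h]
      simp

lemma rename_swap_homog {p : Polynomial K} {n : ℕ} (hp : p.natDegree ≤ n) :
    renameEquiv K (Equiv.swap (0 : Fin 2) 1) (p.homogenize n) =
      (Polynomial.reflect n p).homogenize n := by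
  refine Polynomial.induction_with_natDegree_le (fun p => renameEquiv K (Equiv.swap (0 : Fin 2) 1)
    (p.homogenize n) = (Polynomial.reflect n p).homogenize n) n (by simp) ?_ ?_ p hp
  · intro k r _ hk
    rw [Polynomial.reflect_C_mul_X_pow, Polynomial.revAt_le hk, Polynomial.homogenize_C_mul,
      Polynomial.homogenize_C_mul, Polynomial.homogenize_X_pow hk,
      Polynomial.homogenize_X_pow (Nat.sub_le _ _), Nat.sub_sub_self hk]
    simp [mul_comm]
  · intro f g _ _ h1 h2
    rw [Polynomial.reflect_add, Polynomial.homogenize_add, Polynomial.homogenize_add, map_add,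
      h1, h2]

theorem exists_ci [IsAlgClosed K] {a b : ℕ} (ha : 1 ≤ a) (hab : a ≤ b) {S S' : Finset ℕ}
    (haS : a ∈ S) (hS : S ⊆ Finset.range (a + 1)) (haS' : a ∈ S')
    (hS' : S' ⊆ Finset.range (a + 1)) (hμ : least S + least S' ≤ a) :
    ∃ F G : MvPolynomial (Fin 2) K, F.IsHomogeneous a ∧ G.IsHomogeneous b ∧ Reg F G ∧
      IsJordanType (LinearMap.mulLeft K (Ideal.Quotient.mk (Ideal.span {F, G}) (X 0)))
        (typ a b S) ∧
      IsJordanType (LinearMap.mulLeft K (Ideal.Quotient.mk (Ideal.span {F, G}) (X 1)))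
        (typ a b S') := by
  obtain ⟨f, g, hf, hg, hZ, hZ', e1, e2⟩ := exists_pair (K := K) ha hab haS
    (fun s hs => Nat.lt_succ_iff.1 (Finset.mem_range.1 (hS hs))) haS'
    (fun s hs => Nat.lt_succ_iff.1 (Finset.mem_range.1 (hS' hs))) hμ
  obtain ⟨-, ⟨M, hM⟩, h1, -, -⟩ := concl a b f g hab (ha.trans hab) hf hg hZ
  obtain ⟨-, ⟨M', hM'⟩, h2, -, -⟩ := concl a b _ _ hab (ha.trans hab) (natDegree_reflect_le' hf)
    (natDegree_reflect_le' hg) hZ'
  let θ := renameEquiv K (Equiv.swap (0 : Fin 2) 1)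
  have hθ : θ (X 1) = X 0 := by simp [θ]
  rw [e1] at h1
  rw [e2, ← rename_swap_homog hf, ← rename_swap_homog hg] at h2
  rw [← rename_swap_homog hf, ← rename_swap_homog hg] at hM'
  have hM'' : (X 1 : MvPolynomial (Fin 2) K) ^ M' ∈ Ideal.span {f.homogenize a, g.homogenize b} := by
    obtain ⟨u, v, huv⟩ := Ideal.mem_span_pair.1 hM'
    refine Ideal.mem_span_pair.2 ⟨θ.symm u, θ.symm v, θ.injective ?_⟩
    rw [map_pow, hθ, ← huv, map_add, map_mul, map_mul, θ.apply_symm_apply, θ.apply_symm_apply]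
  have h2' : ∀ m, lam K (Ideal.span {f.homogenize a, g.homogenize b, X 1 ^ m}) =
      smin (jt (b - a) S') m := fun m => by
    rw [← lam_equiv θ, map_pow, hθ]; exact h2 m
  refine ⟨f.homogenize a, g.homogenize b, Polynomial.isHomogeneous_homogenize _,
    Polynomial.isHomogeneous_homogenize _, ⟨?_, ?_, ?_⟩,
    (isJordanType_iff hM h1 (by simp [typ])).2 rfl, (isJordanType_iff hM'' h2' (by simp [typ])).2 rfl⟩
  · exact fun h => hZ.ne_zero (ha.trans hab) (Polynomial.eq_zero_of_homogenize_eq_zero hf h)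
  · have h01 : ¬ (X 0 : MvPolynomial (Fin 2) K) ∣ X 1 := by
      intro h
      have := map_dvd (eval ![0, 1]) h
      simp at this
    have hrel : IsRelPrime ((X 0 : MvPolynomial (Fin 2) K) ^ M) (X 1 ^ M') :=
      ((X_prime.irreducible.isRelPrime_iff_not_dvd).2 h01).pow
    have : IsRelPrime (f.homogenize a) (g.homogenize b) := by
      intro d d1 d2
      obtain ⟨u, v, huv⟩ := Ideal.mem_span_pair.1 hM
      obtain ⟨u', v', huv'⟩ := Ideal.mem_span_pair.1 hM''
      exact hrel (huv ▸ dvd_add (d1.mul_left _) (d2.mul_left _))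
        (huv' ▸ dvd_add (d1.mul_left _) (d2.mul_left _))
    exact fun H hH => this.dvd_of_dvd_mul_left hH
  · rw [Ne, Ideal.eq_top_iff_one, Ideal.mem_span_pair]
    rintro ⟨u, v, huv⟩
    have c1 : constantCoeff (f.homogenize a) = 0 :=
      (Polynomial.isHomogeneous_homogenize f).coeff_eq_zero (by simp; omega)
    have c2 : constantCoeff (g.homogenize b) = 0 :=
      (Polynomial.isHomogeneous_homogenize g).coeff_eq_zero (by simp; omega)
    have := congrArg constantCoeff huv
    simp [c1, c2] at this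

end Pool.Agent.Work.MP_3e4917_al
end

-- merged part: Pool.Agent.Work.MP_3e4917_al.Hilbert
section
namespace Pool.Agent.Work.MP_3e4917_al

open MvPolynomial

variable {K : Type*} [Field K]

lemma homog_mul_dvd {u f : Polynomial K} {a i : ℕ} (hf : f.natDegree ≤ a)
    (hu : u.degree < (i + 1 - a : ℕ)) : f.homogenize a ∣ (u * f).homogenize i := by
  by_cases h0 : u = 0
  · simp [h0]
  have h1 := (Polynomial.natDegree_lt_iff_degree_lt h0).2 hu
  have := Polynomial.homogenize_mul u f (m := i - a) (by omega) hf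
  rw [show i - a + a = i by omega] at this
  exact this ▸ dvd_mul_left _ _

lemma exists_comp {f : Polynomial K} {a : ℕ} (hf : f.natDegree ≤ a) (U : MvPolynomial (Fin 2) K)
    (i : ℕ) : ∃ u : Polynomial K, u.degree < (i + 1 - a : ℕ) ∧
      aeval ![Polynomial.X, 1] (homogeneousComponent i (U * f.homogenize a)) = u * f := by
  rw [component_mul (Polynomial.isHomogeneous_homogenize f)]
  split_ifs with h
  · obtain ⟨u, hu, e⟩ := exists_dehomog (homogeneousComponent_isHomogeneous (i - a) U)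
    refine ⟨u, (Polynomial.degree_le_of_natDegree_le hu).trans_lt ?_, ?_⟩
    · exact_mod_cast (by omega : i - a < i + 1 - a)
    · rw [← e, map_mul, Polynomial.aeval_homogenize_X_one _ hu,
        Polynomial.aeval_homogenize_X_one _ hf]
  · exact ⟨0, by simp, by simp⟩

lemma hilb_low {f g : Polynomial K} {a b i : ℕ} (hf : f.natDegree ≤ a) (hg : g.natDegree ≤ b)
    (hZ : Z b a f g) (hi : i + 1 ≤ a + b) :
    hilb (f.homogenize a) (g.homogenize b) i + ((i + 1 - a) + (i + 1 - b)) = i + 1 := by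
  let π := (Ideal.Quotient.mkₐ K (Ideal.span {f.homogenize a, g.homogenize b})).toLinearMap
  let η := π ∘ₗ Polynomial.homogenizeLM i ∘ₗ (Polynomial.degreeLT K (i + 1)).subtype
  let Φ : (Polynomial.degreeLT K (i + 1 - a) × Polynomial.degreeLT K (i + 1 - b)) →ₗ[K]
      Polynomial K :=
    (LinearMap.mulRight K f ∘ₗ (Polynomial.degreeLT K _).subtype).coprod
      (LinearMap.mulRight K g ∘ₗ (Polynomial.degreeLT K _).subtype)
  have hΦ : ∀ x, Φ x = x.1.1 * f + x.2.1 * g := fun x => rfl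
  have hinj : Function.Injective Φ := by
    rw [injective_iff_map_eq_zero]
    rintro ⟨⟨u, hu⟩, ⟨v, hv⟩⟩ h0
    rw [hΦ] at h0
    obtain ⟨rfl, rfl⟩ := hZ u v (degree_lt_mono (Polynomial.mem_degreeLT.1 hu) (by omega))
      (degree_lt_mono (Polynomial.mem_degreeLT.1 hv) (by omega)) ⟨0, by simpa using h0⟩
    rfl
  have hr : LinearMap.range η = (homogeneousSubmodule (Fin 2) K i).map π := by
    apply le_antisymm
    · rintro _ ⟨⟨w, hw⟩, rfl⟩
      exact ⟨w.homogenize i, Polynomial.isHomogeneous_homogenize w, rfl⟩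
    · rintro _ ⟨F, hF, rfl⟩
      obtain ⟨w, hw, rfl⟩ := exists_dehomog hF
      exact ⟨⟨w, Polynomial.mem_degreeLT.2 ((Polynomial.degree_le_of_natDegree_le hw).trans_lt
        (by exact_mod_cast Nat.lt_succ_self i))⟩, rfl⟩
  have hk : (LinearMap.ker η).map (Polynomial.degreeLT K (i + 1)).subtype = LinearMap.range Φ := by
    apply le_antisymm
    · rintro _ ⟨⟨w, hw⟩, h, rfl⟩
      have hw' : w.natDegree ≤ i := natDegree_le_pred (Polynomial.mem_degreeLT.1 hw)
      obtain ⟨U, V, hUV⟩ := Ideal.mem_span_pair.1 (Ideal.Quotient.eq_zero_iff_mem.1 h)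
      obtain ⟨u, hu, eu⟩ := exists_comp hf U i
      obtain ⟨v, hv, ev⟩ := exists_comp hg V i
      refine ⟨(⟨u, Polynomial.mem_degreeLT.2 hu⟩, ⟨v, Polynomial.mem_degreeLT.2 hv⟩), ?_⟩
      rw [hΦ]
      simp only [Submodule.subtype_apply]
      rw [← eu, ← ev, ← map_add, ← map_add, hUV]
      change aeval _ (homogeneousComponent i (w.homogenize i)) = w
      rw [homogeneousComponent_eq_self (Polynomial.isHomogeneous_homogenize w),
        Polynomial.aeval_homogenize_X_one _ hw']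
    · rintro _ ⟨⟨⟨u, hu⟩, ⟨v, hv⟩⟩, rfl⟩
      rw [Polynomial.mem_degreeLT] at hu hv
      have hd : (u * f + v * g).degree < (i + 1 : ℕ) := by
        refine (Polynomial.degree_add_le _ _).trans_lt (max_lt ?_ ?_)
        · by_cases h0 : u = 0
          · simp [h0]
          have := (Polynomial.natDegree_lt_iff_degree_lt h0).2 hu
          exact degree_lt_mono (degree_mul_lt hu hf) (by omega)
        · by_cases h0 : v = 0
          · simp [h0]
          have := (Polynomial.natDegree_lt_iff_degree_lt h0).2 hv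
          exact degree_lt_mono (degree_mul_lt hv hg) (by omega)
      refine ⟨⟨u * f + v * g, Polynomial.mem_degreeLT.2 hd⟩, ?_, rfl⟩
      change Ideal.Quotient.mk _ ((u * f + v * g).homogenize i) = 0
      rw [Ideal.Quotient.eq_zero_iff_mem, Polynomial.homogenize_add]
      obtain ⟨U, hU⟩ := homog_mul_dvd hf hu
      obtain ⟨V, hV⟩ := homog_mul_dvd hg hv
      exact Ideal.mem_span_pair.2 ⟨U, V, by rw [hU, hV]; ring⟩
  have h1 := η.finrank_range_add_finrank_ker
  rw [hr, ← Submodule.finrank_map_subtype_eq, hk, LinearMap.finrank_range_of_inj hinj,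
    Module.finrank_prod, finrank_degreeLT, finrank_degreeLT, finrank_degreeLT] at h1
  exact h1

theorem hilb_eq {F G : MvPolynomial (Fin 2) K} {a b : ℕ} (ha : 1 ≤ a) (hab : a ≤ b)
    (hF : F.IsHomogeneous a) (hG : G.IsHomogeneous b) (h : Reg F G) : hilb F G = hf a b := by
  obtain ⟨f, hf', rfl⟩ := exists_dehomog hF
  obtain ⟨g, hg, rfl⟩ := exists_dehomog hG
  have hZ := Z_of_reg ha (ha.trans hab) hf' hg h
  ext i
  by_cases hi : i + 1 ≤ a + b
  · have := hilb_low hf' hg hZ hi
    unfold hf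
    split_ifs <;> omega
  · have h1 := hilb_low (i := a + b - 1) hf' hg hZ (by omega)
    have h2 : hilb (f.homogenize a) (g.homogenize b) (a + b - 1) = 0 := by omega
    have : Module.Finite K (homogeneousSubmodule (Fin 2) K (a + b - 1)) :=
      Module.Finite.iff_fg.2 (homogeneousSubmodule_fg _ _ _)
    rw [hilb, Submodule.finrank_eq_zero] at h2
    have h3 : idealOfVars (Fin 2) K ^ (a + b - 1) ≤
        Ideal.span {f.homogenize a, g.homogenize b} := by
      rw [pow_idealOfVars_eq_span, Ideal.span_le]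
      rintro _ ⟨m, hm, rfl⟩
      have : Ideal.Quotient.mk (Ideal.span {f.homogenize a, g.homogenize b}) (monomial m 1) ∈
          (⊥ : Submodule K _) := h2 ▸ ⟨monomial m 1, isHomogeneous_monomial _ hm, rfl⟩
      exact Ideal.Quotient.eq_zero_iff_mem.1 this
    have h4 : (homogeneousSubmodule (Fin 2) K i).map
        (Ideal.Quotient.mkₐ K (Ideal.span {f.homogenize a, g.homogenize b})).toLinearMap = ⊥ := by
      rw [eq_bot_iff]
      rintro _ ⟨p, hp, rfl⟩
      exact Ideal.Quotient.eq_zero_iff_mem.2 (h3 ((mem_pow_idealOfVars_iff' _ _).2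
        fun x hx => IsHomogeneous.coeff_eq_zero hp (by omega)))
    rw [hilb, h4, finrank_bot, hf]
    split_ifs <;> omega

lemma hf_le (a b i : ℕ) : hf a b i ≤ a := by
  unfold hf; split_ifs <;> omega

lemma hf_top {a : ℕ} (b : ℕ) (ha : 1 ≤ a) : hf a b (a - 1) = a := by
  unfold hf; split_ifs <;> omega

lemma hf_zero {a b : ℕ} (ha : 1 ≤ a) (hab : a ≤ b) (i : ℕ) : hf a b i = 0 ↔ a + b - 1 ≤ i := by
  by_cases h1 : i < a
  · rw [hf, if_pos h1]; omega
  by_cases h2 : i < b
  · rw [hf, if_neg h1, if_pos h2]; omega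
  · rw [hf, if_neg h1, if_neg h2]; omega

lemma hf_inj {a b d e : ℕ} (ha : 1 ≤ a) (hab : a ≤ b) (hd : 1 ≤ d) (hde : d ≤ e)
    (h : hf d e = hf a b) : d = a ∧ e = b := by
  have h1 := hf_le d e (a - 1)
  have h2 := hf_le a b (d - 1)
  rw [h, hf_top b ha] at h1
  rw [← h, hf_top e hd] at h2
  have h3 := (hf_zero hd hde (a + b - 1)).1 (by rw [h, hf_zero ha hab])
  have h4 := (hf_zero ha hab (d + e - 1)).1 (by rw [← h, hf_zero hd hde])
  omega

lemma one_le_of_reg {F G : MvPolynomial (Fin 2) K} {a : ℕ} (hF : F.IsHomogeneous a)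
    (h : Reg F G) : 1 ≤ a := by
  by_contra ha
  obtain rfl : a = 0 := by omega
  have h1 := (totalDegree_eq_zero_iff_eq_C).1 ((totalDegree_zero_iff_isHomogeneous _).2 hF)
  have h2 : coeff 0 F ≠ 0 := fun h0 => h.1 (by rw [h1, h0, C_0])
  refine h.2.2 (Ideal.eq_top_of_isUnit_mem _ (Ideal.subset_span (Set.mem_insert _ _)) ?_)
  rw [h1]
  exact (IsUnit.mk0 _ h2).map C

end Pool.Agent.Work.MP_3e4917_al
end

-- merged part: Pool.Agent.Work.MP_3e4917_al.Main
section
namespace Pool.Agent.Work.MP_3e4917_al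

open MvPolynomial

variable {K : Type*} [Field K]

lemma single_nec {F G l : MvPolynomial (Fin 2) K} {a b : ℕ} (ha : 1 ≤ a) (hab : a ≤ b)
    (hF : F.IsHomogeneous a) (hG : G.IsHomogeneous b) (h : Reg F G) (hl : l.IsHomogeneous 1)
    (h0 : l ≠ 0) {P : Multiset ℕ} (hP : 0 ∉ P)
    (hJ : IsJordanType (LinearMap.mulLeft K (Ideal.Quotient.mk (Ideal.span {F, G}) l)) P) :
    ∃ S : Finset ℕ, a ∈ S ∧ S ⊆ Finset.range (a + 1) ∧ P = typ a b S := by
  obtain ⟨-, S, h1, h2, -, ⟨M, hM⟩, h3, -⟩ := type_general ha hab hF hG h hl h0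
  exact ⟨S, h1, h2, (isJordanType_iff hM h3 hP).1 hJ⟩

lemma pair_nec {F G l₁ l₂ : MvPolynomial (Fin 2) K} {a b : ℕ} (ha : 1 ≤ a) (hab : a ≤ b)
    (hF : F.IsHomogeneous a) (hG : G.IsHomogeneous b) (h : Reg F G) (hl₁ : l₁.IsHomogeneous 1)
    (hl₂ : l₂.IsHomogeneous 1) (h₁ : l₁ ≠ 0) (h₂ : l₂ ≠ 0) {P Q : Multiset ℕ} (hP : 0 ∉ P)
    (hQ : 0 ∉ Q)
    (hJ₁ : IsJordanType (LinearMap.mulLeft K (Ideal.Quotient.mk (Ideal.span {F, G}) l₁)) P)
    (hJ₂ : IsJordanType (LinearMap.mulLeft K (Ideal.Quotient.mk (Ideal.span {F, G}) l₂)) Q) :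
    ∃ S S' : Finset ℕ, a ∈ S ∧ S ⊆ Finset.range (a + 1) ∧ a ∈ S' ∧ S' ⊆ Finset.range (a + 1) ∧
      P = typ a b S ∧ Q = typ a b S' ∧ (least S + least S' ≤ a ∨ S = S') := by
  obtain ⟨p1, S, h1, h2, d1, ⟨M, hM⟩, h3, -⟩ := type_general ha hab hF hG h hl₁ h₁
  by_cases hd : l₁ ∣ l₂
  · obtain ⟨w, rfl⟩ := hd
    have hw0 : w ≠ 0 := right_ne_zero_of_mul h₂
    have hw : w.totalDegree = 0 := by
      have := totalDegree_mul_of_isDomain h₁ hw0
      rw [hl₁.totalDegree h₁, hl₂.totalDegree h₂] at this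
      omega
    have hu : IsUnit w := by
      have e := totalDegree_eq_zero_iff_eq_C.1 hw
      have : coeff 0 w ≠ 0 := fun h0 => hw0 (by rw [e, h0, C_0])
      rw [e]
      exact (IsUnit.mk0 _ this).map C
    refine ⟨S, S, h1, h2, h1, h2, (isJordanType_iff hM h3 hP).1 hJ₁,
      (isJordanType_iff (M := M) (P := jt (b - a) S) ?_ (fun m => ?_) hQ).1 hJ₂, Or.inr rfl⟩
    · rw [mul_pow]; exact Ideal.mul_mem_right _ _ hM
    · rw [← span_pair_sup, mul_pow, Ideal.span_singleton_mul_right_unit (hu.pow m), span_pair_sup,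
        h3]
  · obtain ⟨-, S', h1', h2', ⟨w, hw⟩, ⟨M', hM'⟩, h3', -⟩ := type_general ha hab hF hG h hl₂ h₂
    refine ⟨S, S', h1, h2, h1', h2', (isJordanType_iff hM h3 hP).1 hJ₁,
      (isJordanType_iff hM' h3' hQ).1 hJ₂, Or.inl ?_⟩
    have h4 : l₁ ^ least S ∣ w :=
      p1.pow_dvd_of_dvd_mul_left _ (fun h => hd (p1.dvd_of_dvd_pow h)) (hw ▸ d1)
    have h5 : l₂ ^ least S' * l₁ ^ least S ∣ F := hw ▸ mul_dvd_mul_left _ h4
    have := le_of_homog_dvd ((hl₂.pow _).mul (hl₁.pow _)) hF h.1 h5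
    omega

lemma least_top_le (a : ℕ) : least (Finset.range (a + 1)) = 0 := least_of_zero (by simp)

theorem main [IsAlgClosed K] (a b : ℕ) (ha : 1 ≤ a) (hab : a ≤ b) (z : Prop) (P Q : Multiset ℕ)
    (hP : 0 ∉ P) (hQ : 0 ∉ Q) : Occurs K (hf a b) z P Q ↔
      (∃ S S' : Finset ℕ, a ∈ S ∧ S ⊆ Finset.range (a + 1) ∧ a ∈ S' ∧ S' ⊆ Finset.range (a + 1) ∧
        P = typ a b S ∧ Q = typ a b S' ∧ (least S + least S' ≤ a ∨ S = S')) ∨
      (z ∧ ∃ S : Finset ℕ, a ∈ S ∧ S ⊆ Finset.range (a + 1) ∧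
        ((P = Multiset.replicate (a * b) 1 ∧ Q = typ a b S) ∨
          (P = typ a b S ∧ Q = Multiset.replicate (a * b) 1) ∨
          (P = Multiset.replicate (a * b) 1 ∧ Q = Multiset.replicate (a * b) 1))) := by
  constructor
  · rintro ⟨d, e, F, G, l₁, l₂, hde, hF, hG, hr, hH, hl₁, hl₂, hz, hJ₁, hJ₂⟩
    rw [isRegular_iff_reg] at hr
    have hd := one_le_of_reg hF hr
    rw [hilb_eq hd hde hF hG hr] at hH
    obtain ⟨rfl, rfl⟩ := hf_inj ha hab hd hde hH
    by_cases h₁ : l₁ = 0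
    · subst h₁
      have hz' : z := by simpa using hz
      have e1 := (isJordanType_zero_iff ha hab hF hG hr hP).1 hJ₁
      by_cases h₂ : l₂ = 0
      · subst h₂
        exact Or.inr ⟨hz', {d}, by simp, by simp, Or.inr (Or.inr
          ⟨e1, (isJordanType_zero_iff ha hab hF hG hr hQ).1 hJ₂⟩)⟩
      · obtain ⟨S, h1, h2, h3⟩ := single_nec ha hab hF hG hr hl₂ h₂ hQ hJ₂
        exact Or.inr ⟨hz', S, h1, h2, Or.inl ⟨e1, h3⟩⟩
    · by_cases h₂ : l₂ = 0
      · subst h₂
        have hz' : z := by simpa using hz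
        obtain ⟨S, h1, h2, h3⟩ := single_nec ha hab hF hG hr hl₁ h₁ hP hJ₁
        exact Or.inr ⟨hz', S, h1, h2, Or.inr (Or.inl
          ⟨h3, (isJordanType_zero_iff ha hab hF hG hr hQ).1 hJ₂⟩)⟩
      · exact Or.inl (pair_nec ha hab hF hG hr hl₁ hl₂ h₁ h₂ hP hQ hJ₁ hJ₂)
  · have single : ∀ S : Finset ℕ, a ∈ S → S ⊆ Finset.range (a + 1) →
        ∃ F G : MvPolynomial (Fin 2) K, F.IsHomogeneous a ∧ G.IsHomogeneous b ∧ Reg F G ∧
        IsJordanType (LinearMap.mulLeft K (Ideal.Quotient.mk (Ideal.span {F, G}) (X 0)))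
          (typ a b S) := by
      intro S h1 h2
      obtain ⟨F, G, hF, hG, hr, hJ, -⟩ := exists_ci (K := K) ha hab h1 h2
        (S' := Finset.range (a + 1)) (by simp) subset_rfl
        (by rw [least_top_le]; exact least_le h1)
      exact ⟨F, G, hF, hG, hr, hJ⟩
    have hX := isHomogeneous_X (σ := Fin 2) K
    have h0 := isHomogeneous_zero (Fin 2) K 1
    rintro (⟨S, S', h1, h2, h1', h2', rfl, rfl, h | rfl⟩ | ⟨hz, S, h1, h2, h⟩)
    · obtain ⟨F, G, hF, hG, hr, hJ, hJ'⟩ := exists_ci (K := K) ha hab h1 h2 h1' h2' h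
      exact ⟨a, b, F, G, X 0, X 1, hab, hF, hG, (isRegular_iff_reg F G).2 hr,
        hilb_eq ha hab hF hG hr, hX 0, hX 1, Or.inr ⟨X_ne_zero 0, X_ne_zero 1⟩, hJ, hJ'⟩
    · obtain ⟨F, G, hF, hG, hr, hJ⟩ := single S h1 h2
      exact ⟨a, b, F, G, X 0, X 0, hab, hF, hG, (isRegular_iff_reg F G).2 hr,
        hilb_eq ha hab hF hG hr, hX 0, hX 0, Or.inr ⟨X_ne_zero 0, X_ne_zero 0⟩, hJ, hJ⟩
    · obtain ⟨F, G, hF, hG, hr, hJ⟩ := single S h1 h2
      rcases h with ⟨e1, rfl⟩ | ⟨rfl, e2⟩ | ⟨e1, e2⟩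
      · exact ⟨a, b, F, G, 0, X 0, hab, hF, hG, (isRegular_iff_reg F G).2 hr,
          hilb_eq ha hab hF hG hr, h0, hX 0, Or.inl hz,
          (isJordanType_zero_iff ha hab hF hG hr hP).2 e1, hJ⟩
      · exact ⟨a, b, F, G, X 0, 0, hab, hF, hG, (isRegular_iff_reg F G).2 hr,
          hilb_eq ha hab hF hG hr, hX 0, h0, Or.inl hz, hJ,
          (isJordanType_zero_iff ha hab hF hG hr hQ).2 e2⟩
      · exact ⟨a, b, F, G, 0, 0, hab, hF, hG, (isRegular_iff_reg F G).2 hr,
          hilb_eq ha hab hF hG hr, h0, h0, Or.inl hz,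
          (isJordanType_zero_iff ha hab hF hG hr hP).2 e1,
          (isJordanType_zero_iff ha hab hF hG hr hQ).2 e2⟩

end Pool.Agent.Work.MP_3e4917_al
end
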